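import Pool.Agent.H428R2.PK.Defs

namespace H428PK
open Complex Metric Set Filter Topology

/- A1: geometry: w = 1 - z conj ζ; Eset closed, distance facts -/

theorem wfacts (z ζ : ℂ) (hz : ‖z‖ ≤ 1) (hζ : ‖ζ‖ = 1) :
    0 ≤ (1 - z * (starRingEnd ℂ) ζ).re ∧ ‖1 - z * (starRingEnd ℂ) ζ‖ = ‖z - ζ‖ := by
  have h1 : ζ * (starRingEnd ℂ) ζ = 1 := by
    rw [Complex.mul_conj, Complex.normSq_eq_norm_sq, hζ]; simp
  constructor
  · have h2 : (z * (starRingEnd ℂ) ζ).re ≤ 1 := by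
      refine (Complex.re_le_norm _).trans ?_
      rw [norm_mul, Complex.norm_conj, hζ, mul_one]; exact hz
    rw [Complex.sub_re, Complex.one_re]; linarith
  · have h3 : 1 - z * (starRingEnd ℂ) ζ = -((z - ζ) * (starRingEnd ℂ) ζ) := by
      rw [← h1]; ring
    rw [h3, norm_neg, norm_mul, Complex.norm_conj, hζ, mul_one]

theorem wsub (z z' ζ : ℂ) (hζ : ‖ζ‖ = 1) :
    ‖(1 - z' * (starRingEnd ℂ) ζ) - (1 - z * (starRingEnd ℂ) ζ)‖ = ‖z' - z‖ := by
  have h3 : (1 - z' * (starRingEnd ℂ) ζ) - (1 - z * (starRingEnd ℂ) ζ)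
      = -((z' - z) * (starRingEnd ℂ) ζ) := by ring
  rw [h3, norm_neg, norm_mul, Complex.norm_conj, hζ, mul_one]

theorem Eset_closed {α : ℝ} {ι : Type} {ρ : ι → ℝ} {ζ : ι → ℂ} {S c : ℝ} (H : Good α ρ ζ S c) :
    IsClosed (Eset ζ) ∧ Eset ζ ⊆ sphere 0 1 := by
  constructor
  · rw [← isOpen_compl_iff, Metric.isOpen_iff]
    intro x hx
    have hx1 : x ≠ 1 := by
      intro h; apply hx; rw [h]; exact mem_insert _ _
    set ε := ‖x - 1‖ / 2 with hε
    have hε0 : 0 < ε := by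
      have : 0 < ‖x - 1‖ := norm_pos_iff.2 (sub_ne_zero.2 hx1)
      positivity
    have hfin : (ζ '' {n : ι | ε ≤ ‖ζ n - 1‖}).Finite := (H.lim ε hε0).image _
    have hclosed := hfin.isClosed
    have hxn : x ∉ ζ '' {n : ι | ε ≤ ‖ζ n - 1‖} := by
      rintro ⟨n, _, hn⟩
      apply hx
      exact mem_insert_of_mem _ ⟨n, hn⟩
    obtain ⟨r, hr0, hr⟩ := Metric.isOpen_iff.1 hclosed.isOpen_compl x hxn
    refine ⟨min r ε, lt_min hr0 hε0, ?_⟩
    intro y hy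
    rw [mem_ball] at hy
    have hy1 : dist y x < r := lt_of_lt_of_le hy (min_le_left _ _)
    have hy2 : dist y x < ε := lt_of_lt_of_le hy (min_le_right _ _)
    have hyx : ‖x - 1‖ ≤ dist y x + ‖y - 1‖ := by
      rw [dist_eq_norm, ← norm_sub_rev x y]
      calc ‖x - 1‖ = ‖(x - y) + (y - 1)‖ := by ring_nf
        _ ≤ _ := norm_add_le _ _
    have hx2 : ‖x - 1‖ = 2 * ε := by rw [hε]; ring
    have hylarge : ε < ‖y - 1‖ := by linarith
    intro hyE
    rcases hyE with h | ⟨n, hn⟩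
    · rw [h] at hylarge; simp at hylarge; linarith
    · apply hr (mem_ball.2 hy1)
      refine ⟨n, ?_, hn⟩
      rw [mem_setOf_eq, hn]; exact hylarge.le
  · rintro y (h | ⟨n, hn⟩)
    · rw [h]; simp
    · rw [← hn]; simp [H.circ n]

/-- `d = infDist z E` is positive off `E`, at most `‖z - ζ n‖` and at most `‖1 - z‖`, and is one
of these numbers up to a factor `2`. -/
theorem dfacts {α : ℝ} {ι : Type} {ρ : ι → ℝ} {ζ : ι → ℂ} {S c : ℝ} (H : Good α ρ ζ S c)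
    (z : ℂ) (hzE : z ∉ Eset ζ) :
    0 < infDist z (Eset ζ) ∧ (∀ n, infDist z (Eset ζ) ≤ ‖z - ζ n‖) ∧
      infDist z (Eset ζ) ≤ ‖1 - z‖ ∧
      (‖1 - z‖ ≤ 2 * infDist z (Eset ζ) ∨ ∃ n, ‖z - ζ n‖ ≤ 2 * infDist z (Eset ζ)) := by
  have hne : (Eset ζ).Nonempty := ⟨1, mem_insert _ _⟩
  have hpos : 0 < infDist z (Eset ζ) :=
    ((Eset_closed H).1.notMem_iff_infDist_pos hne).1 hzE
  refine ⟨hpos, ?_, ?_, ?_⟩
  · intro n
    rw [← dist_eq_norm]
    exact infDist_le_dist_of_mem (mem_insert_of_mem _ ⟨n, rfl⟩)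
  · rw [norm_sub_rev, ← dist_eq_norm]
    exact infDist_le_dist_of_mem (mem_insert _ _)
  · obtain ⟨y, hyE, hy⟩ := (infDist_lt_iff hne).1 (show infDist z (Eset ζ) < 2 * infDist z (Eset ζ) by
      linarith)
    rcases hyE with h | ⟨n, hn⟩
    · left
      rw [h, dist_eq_norm, norm_sub_rev] at hy
      exact hy.le
    · right
      refine ⟨n, ?_⟩
      rw [← hn, dist_eq_norm] at hy
      exact hy.le

end H428PK
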