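import Pool.Agent.H428R2.PK.Defs

namespace H428PK
open Complex Metric Set Filter Topology

/- K1: Re(w^α) ≥ cos(απ/2)|w|^α, and |w^α+w/ρ| ≥ |w|^α, |w|/ρ for Re w ≥ 0

PROOF NOTES: cpow_re_ge: Complex.cpow_ofReal_re : (x ^ (y:ℂ)).re = ‖x‖ ^ y * Real.cos (arg x * y); |arg w| ≤ π/2 (Complex.abs_arg_le_pi_div_two_iff), cos is even and antitone on [0,π]. cpow_norm: Complex.norm_cpow_eq_rpow_re_of_pos-like / Complex.norm_cpow_of_ne_zero / norm_cpow_real. ker_den_ge: for complex a,b with 0 ≤ Re(a * conj b): ‖a+b‖² = ‖a‖²+‖b‖²+2Re(a conj b) ≥ ‖a‖², ‖b‖² (Complex.sq_norm_add or normSq_add). Here a = w^α, b = w/ρ and Re(w^α * conj w) = |w|^(α+1) cos((α-1) arg w) ≥ 0, or: write w = r e^{iθ} (θ = arg w, |θ| ≤ π/2): a = r^α e^{iαθ}; Re(a conj b) = (1/ρ)(a.re*w.re + a.im*w.im) and a.re ≥ 0, w.re ≥ 0, a.im = |w|^α sin(αθ), w.im = |w| sin θ have the same sign.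
-/

theorem cpow_re_ge (α : ℝ) (h0 : 0 < α) (h1 : α < 1) (w : ℂ) (hw : 0 ≤ w.re) (hw0 : w ≠ 0) :
    Real.cos (α * Real.pi / 2) * ‖w‖ ^ α ≤ (w ^ (α : ℂ)).re := by
  have _ := hw0
  rw [Complex.cpow_ofReal_re, mul_comm]
  have harg : |Complex.arg w| ≤ Real.pi / 2 := Complex.abs_arg_le_pi_div_two_iff.2 hw
  have hpi := Real.pi_pos
  have h2 : |Complex.arg w * α| ≤ α * Real.pi / 2 := by
    rw [abs_mul, abs_of_pos h0]
    nlinarith
  have h3 : Real.cos (α * Real.pi / 2) ≤ Real.cos (Complex.arg w * α) := by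
    rw [← Real.cos_abs (Complex.arg w * α)]
    exact Real.cos_le_cos_of_nonneg_of_le_pi (abs_nonneg _) (by nlinarith) h2
  exact mul_le_mul_of_nonneg_left h3 (Real.rpow_nonneg (norm_nonneg w) α)

theorem cpow_norm (α : ℝ) (w : ℂ) (hw0 : w ≠ 0) : ‖w ^ (α : ℂ)‖ = ‖w‖ ^ α := by
  have _ := hw0
  exact Complex.norm_cpow_real w α

theorem norm_le_add_aux (a b : ℂ) (h : 0 ≤ a.re * b.re + a.im * b.im) : ‖a‖ ≤ ‖a + b‖ := by
  have h1 : ‖a‖ ^ 2 ≤ ‖a + b‖ ^ 2 := by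
    rw [Complex.sq_norm, Complex.sq_norm, Complex.normSq_apply, Complex.normSq_apply,
      Complex.add_re, Complex.add_im]
    nlinarith [mul_self_nonneg b.re, mul_self_nonneg b.im]
  exact le_of_sq_le_sq h1 (norm_nonneg _)

theorem ker_den_ge (α ρ : ℝ) (h0 : 0 < α) (h1 : α < 1) (hρ : 0 < ρ) (w : ℂ) (hw : 0 ≤ w.re)
    (hw0 : w ≠ 0) :
    ‖w‖ ^ α ≤ ‖w ^ (α : ℂ) + w / (ρ : ℂ)‖ ∧ ‖w‖ / ρ ≤ ‖w ^ (α : ℂ) + w / (ρ : ℂ)‖ := by
  have harg : |Complex.arg w| ≤ Real.pi / 2 := Complex.abs_arg_le_pi_div_two_iff.2 hw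
  have hpi := Real.pi_pos
  have hcos : 0 ≤ Real.cos (Complex.arg w * α - Complex.arg w) := by
    have h2 : |Complex.arg w * α - Complex.arg w| ≤ Real.pi / 2 := by
      have h3 : Complex.arg w * α - Complex.arg w = -(Complex.arg w * (1 - α)) := by ring
      rw [h3, abs_neg, abs_mul, abs_of_pos (by linarith : (0 : ℝ) < 1 - α)]
      have := abs_nonneg (Complex.arg w)
      nlinarith
    exact Real.cos_nonneg_of_mem_Icc (abs_le.1 h2)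
  have hre : w.re = ‖w‖ * Real.cos (Complex.arg w) := (Complex.norm_mul_cos_arg w).symm
  have him : w.im = ‖w‖ * Real.sin (Complex.arg w) := (Complex.norm_mul_sin_arg w).symm
  have hprod : 0 ≤ (w ^ (α : ℂ)).re * w.re + (w ^ (α : ℂ)).im * w.im := by
    rw [Complex.cpow_ofReal_re, Complex.cpow_ofReal_im, hre, him]
    rw [Real.cos_sub] at hcos
    have h4 : 0 ≤ ‖w‖ ^ α * ‖w‖ := mul_nonneg (Real.rpow_nonneg (norm_nonneg w) α) (norm_nonneg w)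
    have h5 := mul_nonneg h4 hcos
    have hn : ‖(w : ℂ)‖ = ‖w‖ := rfl
    nlinarith [h5]
  have hb1 : (w / (ρ : ℂ)).re = w.re / ρ := Complex.div_ofReal_re w ρ
  have hb2 : (w / (ρ : ℂ)).im = w.im / ρ := Complex.div_ofReal_im w ρ
  have hprod2 : 0 ≤ (w ^ (α : ℂ)).re * (w / (ρ : ℂ)).re + (w ^ (α : ℂ)).im * (w / (ρ : ℂ)).im := by
    rw [hb1, hb2]
    have h6 : (w ^ (α : ℂ)).re * (w.re / ρ) + (w ^ (α : ℂ)).im * (w.im / ρ) =
        ((w ^ (α : ℂ)).re * w.re + (w ^ (α : ℂ)).im * w.im) / ρ := by ring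
    rw [h6]
    exact div_nonneg hprod hρ.le
  constructor
  · rw [← cpow_norm α w hw0]
    exact norm_le_add_aux _ _ hprod2
  · have h7 : ‖w‖ / ρ = ‖w / (ρ : ℂ)‖ := by
      rw [norm_div, Complex.norm_real, Real.norm_of_nonneg hρ.le]
    rw [h7, add_comm (w ^ (α : ℂ))]
    refine norm_le_add_aux _ _ ?_
    have h8 : (w / (ρ : ℂ)).re * (w ^ (α : ℂ)).re + (w / (ρ : ℂ)).im * (w ^ (α : ℂ)).im =
        (w ^ (α : ℂ)).re * (w / (ρ : ℂ)).re + (w ^ (α : ℂ)).im * (w / (ρ : ℂ)).im := by ring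
    rw [h8]
    exact hprod2

end H428PK
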