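import Pool.Agent.H428R2.PK.Defs
import Pool.Agent.H428R2.PK.K1
namespace H428PK
open Complex Metric Set Filter Topology

/- K2: Re ker ≥ 0; Re ker ≥ (κ/4)|w|^{-α} if |w|^{1-α} ≤ ρ; |ker| ≤ ρ/|w|, |w|^{-α}

PROOF NOTES: ker = x⁻¹ with x = w^α + w/ρ. Complex.inv_re : (x⁻¹).re = x.re / normSq x. x.re ≥ 0 since Re w^α ≥ κ|w|^α ≥ 0 (K1, κ = cos(απ/2) > 0) and w.re/ρ ≥ 0. For ker_re_ge: ‖x‖ ≤ |w|^α + |w|/ρ ≤ 2|w|^α because |w| = |w|^α |w|^(1-α) ≤ |w|^α ρ; so (x⁻¹).re = x.re/‖x‖² ≥ κ|w|^α/(4|w|^{2α}). ker_norm_le: ‖x⁻¹‖ = 1/‖x‖ and ker_den_ge.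
-/

private lemma k2_cos_pos (α : ℝ) (h0 : 0 < α) (h1 : α < 1) : 0 < Real.cos (α * Real.pi / 2) := by
  apply Real.cos_pos_of_mem_Ioo
  have hp := Real.pi_pos
  constructor <;> nlinarith

private lemma k2_re (α ρ : ℝ) (w : ℂ) :
    (w ^ (α : ℂ) + w / (ρ : ℂ)).re = (w ^ (α : ℂ)).re + w.re / ρ := by
  rw [Complex.add_re, Complex.div_ofReal_re]

private lemma k2_re_ge (α ρ : ℝ) (h0 : 0 < α) (h1 : α < 1) (hρ : 0 < ρ) (w : ℂ) (hw : 0 ≤ w.re)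
    (hw0 : w ≠ 0) :
    Real.cos (α * Real.pi / 2) * ‖w‖ ^ α ≤ (w ^ (α : ℂ) + w / (ρ : ℂ)).re := by
  rw [k2_re]
  have h2 := cpow_re_ge α h0 h1 w hw hw0
  have h3 : 0 ≤ w.re / ρ := div_nonneg hw hρ.le
  linarith

theorem ker_re_nonneg (α ρ : ℝ) (h0 : 0 < α) (h1 : α < 1) (hρ : 0 < ρ) (w : ℂ) (hw : 0 ≤ w.re)
    (hw0 : w ≠ 0) : 0 ≤ (ker α ρ w).re := by
  unfold ker
  rw [Complex.inv_re]
  apply div_nonneg _ (Complex.normSq_nonneg _)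
  refine le_trans ?_ (k2_re_ge α ρ h0 h1 hρ w hw hw0)
  exact mul_nonneg (k2_cos_pos α h0 h1).le (Real.rpow_nonneg (norm_nonneg _) _)

theorem ker_re_ge (α ρ : ℝ) (h0 : 0 < α) (h1 : α < 1) (hρ : 0 < ρ) (w : ℂ) (hw : 0 ≤ w.re)
    (hw0 : w ≠ 0) (hs : ‖w‖ ^ (1 - α) ≤ ρ) :
    Real.cos (α * Real.pi / 2) / 4 * ‖w‖ ^ (-α) ≤ (ker α ρ w).re := by
  have hκ := k2_cos_pos α h0 h1
  have hr : 0 < ‖w‖ := norm_pos_iff.2 hw0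
  have hra : 0 < ‖w‖ ^ α := Real.rpow_pos_of_pos hr _
  have hden := (ker_den_ge α ρ h0 h1 hρ w hw hw0).1
  have hre := k2_re_ge α ρ h0 h1 hρ w hw hw0
  have hle : ‖w ^ (α : ℂ) + w / (ρ : ℂ)‖ ≤ 2 * ‖w‖ ^ α := by
    have e1 : ‖w‖ = ‖w‖ ^ α * ‖w‖ ^ (1 - α) := by
      rw [← Real.rpow_add hr]
      simp
    have e2 : ‖w / (ρ : ℂ)‖ ≤ ‖w‖ ^ α := by
      rw [norm_div, Complex.norm_real, Real.norm_of_nonneg hρ.le, div_le_iff₀ hρ]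
      calc ‖w‖ = ‖w‖ ^ α * ‖w‖ ^ (1 - α) := e1
        _ ≤ ‖w‖ ^ α * ρ := mul_le_mul_of_nonneg_left hs hra.le
    calc ‖w ^ (α : ℂ) + w / (ρ : ℂ)‖ ≤ ‖w ^ (α : ℂ)‖ + ‖w / (ρ : ℂ)‖ := norm_add_le _ _
      _ ≤ ‖w‖ ^ α + ‖w‖ ^ α := add_le_add (cpow_norm α w hw0).le e2
      _ = 2 * ‖w‖ ^ α := by ring
  unfold ker
  rw [Complex.inv_re, Complex.normSq_eq_norm_sq, Real.rpow_neg hr.le]
  set x := w ^ (α : ℂ) + w / (ρ : ℂ) with hx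
  have hx0 : 0 < ‖x‖ := lt_of_lt_of_le hra hden
  rw [le_div_iff₀ (by positivity)]
  calc Real.cos (α * Real.pi / 2) / 4 * (‖w‖ ^ α)⁻¹ * ‖x‖ ^ 2
      ≤ Real.cos (α * Real.pi / 2) / 4 * (‖w‖ ^ α)⁻¹ * (2 * ‖w‖ ^ α) ^ 2 := by
        apply mul_le_mul_of_nonneg_left _ (by positivity)
        exact pow_le_pow_left₀ hx0.le hle 2
    _ = Real.cos (α * Real.pi / 2) * ‖w‖ ^ α := by
        field_simp
        ring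
    _ ≤ x.re := hre

theorem ker_norm_le (α ρ : ℝ) (h0 : 0 < α) (h1 : α < 1) (hρ : 0 < ρ) (w : ℂ) (hw : 0 ≤ w.re)
    (hw0 : w ≠ 0) : ‖ker α ρ w‖ ≤ ρ / ‖w‖ ∧ ‖ker α ρ w‖ ≤ ‖w‖ ^ (-α) := by
  have hr : 0 < ‖w‖ := norm_pos_iff.2 hw0
  have hra : 0 < ‖w‖ ^ α := Real.rpow_pos_of_pos hr _
  obtain ⟨h2, h3⟩ := ker_den_ge α ρ h0 h1 hρ w hw hw0
  unfold ker
  rw [norm_inv]
  constructor
  · have h4 : ρ / ‖w‖ = (‖w‖ / ρ)⁻¹ := by rw [inv_div]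
    rw [h4]
    exact inv_anti₀ (div_pos hr hρ) h3
  · rw [Real.rpow_neg hr.le]
    exact inv_anti₀ hra h2

end H428PK
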