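import Pool.Agent.H428R2.PK.Defs
import Pool.Agent.H428R2.PK.K2
import Pool.Agent.H428R2.PK.A1
namespace H428PK
open Complex Metric Set Filter Topology

/- A2: summability of Σ ker off E and Re G > 0 (helper133) -/

private theorem A2_w {α : ℝ} {ι : Type} {ρ : ι → ℝ} {ζ : ι → ℂ}
    {S c : ℝ} (H : Good α ρ ζ S c) (z : ℂ) (hz : ‖z‖ ≤ 1) (hzE : z ∉ Eset ζ) (n : ι) :
    0 ≤ (1 - z * (starRingEnd ℂ) (ζ n)).re ∧ (1 - z * (starRingEnd ℂ) (ζ n)) ≠ 0 ∧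
      infDist z (Eset ζ) ≤ ‖1 - z * (starRingEnd ℂ) (ζ n)‖ := by
  obtain ⟨hd, hdn, -, -⟩ := dfacts H z hzE
  obtain ⟨h1, h2⟩ := wfacts z (ζ n) hz (H.circ n)
  have h3 := hdn n
  rw [← h2] at h3
  refine ⟨h1, ?_, h3⟩
  intro h0
  rw [h0, norm_zero] at h3
  linarith

theorem ker_summable {α : ℝ} (h0 : 0 < α) (h1 : α < 1) {ι : Type} {ρ : ι → ℝ} {ζ : ι → ℂ}
    {S c : ℝ} (H : Good α ρ ζ S c) (z : ℂ) (hz : ‖z‖ ≤ 1) (hzE : z ∉ Eset ζ) :
    Summable (fun n => ‖ker α (ρ n) (1 - z * (starRingEnd ℂ) (ζ n))‖) ∧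
    Summable (fun n => ker α (ρ n) (1 - z * (starRingEnd ℂ) (ζ n))) := by
  have hS : Summable (fun n => ‖ker α (ρ n) (1 - z * (starRingEnd ℂ) (ζ n))‖) := by
    obtain ⟨hd, -, -, -⟩ := dfacts H z hzE
    refine Summable.of_nonneg_of_le (fun n => norm_nonneg _) (fun n => ?_)
      (H.ρsum.div_const (infDist z (Eset ζ)))
    obtain ⟨hre, hne, hle⟩ := A2_w H z hz hzE n
    refine ((ker_norm_le α (ρ n) h0 h1 (H.ρpos n) _ hre hne).1).trans ?_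
    exact div_le_div_of_nonneg_left (H.ρpos n).le hd hle
  exact ⟨hS, hS.of_norm⟩

private theorem A2_main {M : ℝ} (hM : 0 < M) {ι : Type} {ζ : ι → ℂ} (z : ℂ) (hz : ‖z‖ ≤ 1)
    (hzE : z ∉ Eset ζ) : 0 < ((M : ℂ) / (1 - z)).re := by
  have hz1 : z ≠ 1 := fun h => hzE (h ▸ Set.mem_insert _ _)
  have hne : (1 - z) ≠ 0 := sub_ne_zero.mpr (Ne.symm hz1)
  have hns : 0 < Complex.normSq (1 - z) := Complex.normSq_pos.mpr hne
  have hre : 0 < (1 - z).re := by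
    rw [Complex.sub_re, Complex.one_re]
    have hle : z.re ≤ 1 := (Complex.re_le_norm z).trans hz
    rcases hle.lt_or_eq with h | h
    · linarith
    · exfalso
      apply hz1
      have h2 : z.re ^ 2 + z.im ^ 2 = ‖z‖ ^ 2 := by
        rw [← Complex.normSq_eq_norm_sq, Complex.normSq_apply]; ring
      have h3 : ‖z‖ ^ 2 ≤ 1 := by
        have := norm_nonneg z
        nlinarith
      have h4 : z.im = 0 := by
        have : z.im ^ 2 ≤ 0 := by rw [h] at h2; linarith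
        exact pow_eq_zero_iff (two_ne_zero) |>.mp (le_antisymm this (sq_nonneg _))
      apply Complex.ext
      · simpa using h
      · simpa using h4
  rw [div_eq_mul_inv, Complex.re_ofReal_mul, Complex.inv_re]
  exact mul_pos hM (div_pos hre hns)

private theorem A2_re {α : ℝ} (h0 : 0 < α) (h1 : α < 1) {ι : Type} {ρ : ι → ℝ} {ζ : ι → ℂ}
    {S c : ℝ} (H : Good α ρ ζ S c) (M : ℝ) (z : ℂ) (hz : ‖z‖ ≤ 1)
    (hzE : z ∉ Eset ζ) : (GG α M ρ ζ z).re = ((M : ℂ) / (1 - z)).re +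
      ∑' n, (ker α (ρ n) (1 - z * (starRingEnd ℂ) (ζ n))).re := by
  unfold GG
  rw [Complex.add_re, Complex.re_tsum (ker_summable h0 h1 H z hz hzE).2]

theorem GG_re_pos {α : ℝ} (h0 : 0 < α) (h1 : α < 1) {ι : Type} {ρ : ι → ℝ} {ζ : ι → ℂ}
    {S c : ℝ} (H : Good α ρ ζ S c) (M : ℝ) (hM : 0 < M) (z : ℂ) (hz : ‖z‖ ≤ 1)
    (hzE : z ∉ Eset ζ) : 0 < (GG α M ρ ζ z).re := by
  rw [A2_re h0 h1 H M z hz hzE]
  refine add_pos_of_pos_of_nonneg (A2_main hM z hz hzE) (tsum_nonneg fun n => ?_)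
  obtain ⟨hre, hne, -⟩ := A2_w H z hz hzE n
  exact ker_re_nonneg α (ρ n) h0 h1 (H.ρpos n) _ hre hne

theorem GG_re_ge {α : ℝ} (h0 : 0 < α) (h1 : α < 1) {ι : Type} {ρ : ι → ℝ} {ζ : ι → ℂ}
    {S c : ℝ} (H : Good α ρ ζ S c) (M : ℝ) (hM : 0 < M) (z : ℂ) (hz : ‖z‖ ≤ 1)
    (hzE : z ∉ Eset ζ) (n : ι) :
    (ker α (ρ n) (1 - z * (starRingEnd ℂ) (ζ n))).re ≤ (GG α M ρ ζ z).re := by
  rw [A2_re h0 h1 H M z hz hzE]
  have hs : Summable (fun n => (ker α (ρ n) (1 - z * (starRingEnd ℂ) (ζ n))).re) :=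
    (Complex.hasSum_re (ker_summable h0 h1 H z hz hzE).2.hasSum).summable
  have h2 := hs.le_tsum n (fun m _ => by
    obtain ⟨hre, hne, -⟩ := A2_w H z hz hzE m
    exact ker_re_nonneg α (ρ m) h0 h1 (H.ρpos m) _ hre hne)
  have h3 := A2_main hM z hz hzE
  linarith

end H428PK
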