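import Pool.Agent.H428R2.PK.Defs
import Pool.Agent.H428R2.PK.K1
import Pool.Agent.H428R2.PK.K2
import Pool.Agent.H428R2.PK.A1
import Pool.Agent.H428R2.PK.A2
namespace H428PK
open Complex Metric Set Filter Topology

/- A3: LOWER BOUND: |1/(1+G)| ≤ C d^α and ≤ C|1-z| -/

open Classical in
theorem A3_tsum {ι : Type} (f : ι → ℂ) (hf : Summable (fun n => ‖f n‖)) (B : ℝ) (hB : 0 ≤ B)
    (F : Set ι) (h : ∀ s : Finset ι, (∀ n ∈ s, n ∉ F) → ∑ n ∈ s, ‖f n‖ ≤ B) :
    ‖∑' n, (if n ∈ F then 0 else f n)‖ ≤ B := by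
  have h1 : ∀ n, ‖(if n ∈ F then 0 else f n)‖ ≤ ‖f n‖ := by
    intro n
    split_ifs
    · simp
    · exact le_rfl
  have h2 : Summable (fun n => ‖(if n ∈ F then (0:ℂ) else f n)‖) :=
    Summable.of_nonneg_of_le (fun n => norm_nonneg _) h1 hf
  refine (norm_tsum_le_tsum_norm h2).trans ?_
  refine h2.tsum_le_of_sum_le ?_
  intro s
  have h3 : ∑ n ∈ s, ‖(if n ∈ F then (0:ℂ) else f n)‖ = ∑ n ∈ s.filter (fun n => n ∉ F), ‖f n‖ := by
    rw [Finset.sum_filter]
    refine Finset.sum_congr rfl ?_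
    intro n _
    by_cases hn : n ∈ F <;> simp [hn]
  rw [h3]
  exact h _ (fun n hn => (Finset.mem_filter.1 hn).2)

theorem A3_caseI (M S m τ : ℝ) (z R T : ℂ) (hτ : τ = ‖1 - z‖) (hτ0 : 0 < τ) (hτ2 : τ ≤ 2)
    (hM0 : 0 < M) (hM : M = S + m + 3) (hR : ‖R‖ ≤ S / τ) (hT : ‖T‖ ≤ m / τ) :
    1 / τ ≤ ‖1 + ((M : ℂ) / (1 - z) + (T + R))‖ := by
  have h1 : ‖(M : ℂ) / (1 - z)‖ = M / τ := by
    rw [norm_div, hτ]
    congr 1
    rw [Complex.norm_real, Real.norm_eq_abs, abs_of_pos hM0]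
  have h2 : ‖(M : ℂ) / (1 - z)‖ ≤ ‖1 + ((M : ℂ) / (1 - z) + (T + R))‖ + ‖(1:ℂ)‖ + ‖T‖ + ‖R‖ := by
    have : (M : ℂ) / (1 - z) = (1 + ((M : ℂ) / (1 - z) + (T + R))) - 1 - T - R := by ring
    calc ‖(M : ℂ) / (1 - z)‖ = ‖(1 + ((M : ℂ) / (1 - z) + (T + R))) - 1 - T - R‖ := by rw [← this]
      _ ≤ _ := by
        refine (norm_sub_le _ _).trans ?_
        gcongr
        refine (norm_sub_le _ _).trans ?_
        gcongr
        exact norm_sub_le _ _
  rw [h1, norm_one] at h2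
  have h3 : M / τ = S / τ + m / τ + 3 / τ := by rw [hM]; ring
  have h4 : (1:ℝ) ≤ 2 / τ := by rw [le_div_iff₀ hτ0]; linarith
  have h5 : 3 / τ = 1 / τ + 2 / τ := by ring
  linarith

theorem A3_P {α : ℝ} (h0 : 0 < α) (c' τ d : ℝ) (hc : 0 < c') (hτ : 0 < τ) (hd : 0 < d)
    (h : c' * τ ^ (1/α) ≤ 2 * d) : τ ≤ (2 / c') ^ α * d ^ α := by
  have h1 : τ ^ (1/α) ≤ 2 / c' * d := by
    rw [div_mul_eq_mul_div, le_div_iff₀ hc]
    linarith
  have h2 : (τ ^ (1/α)) ^ α ≤ (2 / c' * d) ^ α :=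
    Real.rpow_le_rpow (by positivity) h1 h0.le
  rw [← Real.rpow_mul hτ.le, one_div_mul_cancel h0.ne', Real.rpow_one,
    Real.mul_rpow (by positivity) hd.le] at h2
  exact h2

theorem A3_two {α : ℝ} (h0 : 0 < α) (h1 : α < 1) (x : ℝ) (hx : 0 ≤ x) :
    (2 * x) ^ α ≤ 2 * x ^ α := by
  rw [Real.mul_rpow (by norm_num) hx]
  gcongr
  calc (2:ℝ) ^ α ≤ 2 ^ (1:ℝ) := Real.rpow_le_rpow_of_exponent_le (by norm_num) h1.le
    _ = 2 := by norm_num

theorem A3_tau {α : ℝ} (h0 : 0 < α) (h1 : α < 1) (τ d : ℝ) (hτ : 0 < τ) (hτ2 : τ ≤ 2) (hd : 0 < d)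
    (h : τ ≤ 2 * d) : τ ≤ 4 * d ^ α := by
  have e1 : τ = τ ^ (1 - α) * τ ^ α := by
    rw [← Real.rpow_add hτ]; simp
  have e2 : τ ^ (1 - α) ≤ 2 := by
    calc τ ^ (1 - α) ≤ 2 ^ (1 - α) := Real.rpow_le_rpow hτ.le hτ2 (by linarith)
      _ ≤ 2 ^ (1:ℝ) := Real.rpow_le_rpow_of_exponent_le (by norm_num) (by linarith)
      _ = 2 := by norm_num
  have e3 : τ ^ α ≤ 2 * d ^ α :=
    (Real.rpow_le_rpow hτ.le h h0.le).trans (A3_two h0 h1 d hd.le)
  calc τ = τ ^ (1 - α) * τ ^ α := e1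
    _ ≤ 2 * (2 * d ^ α) := by gcongr
    _ = 4 * d ^ α := by ring

/-- the key lower bound for `|1+G|` -/
theorem lower {α : ℝ} (h0 : 0 < α) (h1 : α < 1) {ι : Type} {ρ : ι → ℝ} {ζ : ι → ℂ}
    {S c : ℝ} (H : Good α ρ ζ S c) :
    ∃ M C : ℝ, 0 < M ∧ 0 < C ∧ ∀ z : ℂ, ‖z‖ ≤ 1 → z ∉ Eset ζ →
      ‖(1 + GG α M ρ ζ z)⁻¹‖ ≤ C * infDist z (Eset ζ) ^ α ∧
      ‖(1 + GG α M ρ ζ z)⁻¹‖ ≤ C * ‖1 - z‖ := by
  classical
  have hS := H.S0
  have hc := H.c0
  set β : ℝ := 1/α - 1 with hβ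
  have hβ0 : 0 < β := by
    rw [hβ, sub_pos, lt_div_iff₀ h0]; linarith
  set κ : ℝ := Real.cos (α * Real.pi / 2) with hκ
  have hκ0 : 0 < κ := by
    apply Real.cos_pos_of_mem_Ioo
    have := Real.pi_pos
    constructor <;> nlinarith
  set m : ℝ := max 1 ((1/c) ^ (1/β)) with hm
  have hm1 : 1 ≤ m := le_max_left _ _
  have hm0 : 0 < m := by linarith
  have hmβ : 1 / c ≤ m ^ β := by
    calc 1 / c = ((1/c) ^ (1/β)) ^ β := by
          rw [← Real.rpow_mul (by positivity), one_div_mul_cancel hβ0.ne', Real.rpow_one]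
      _ ≤ m ^ β := Real.rpow_le_rpow (by positivity) (le_max_right _ _) hβ0.le
  set M : ℝ := S + m + 3 with hM
  have hM0 : 0 < M := by linarith
  set c' : ℝ := c / (2 * m) with hc'
  have hc'0 : 0 < c' := by positivity
  have hc'c : c' ≤ c := by
    rw [hc', div_le_iff₀ (by positivity)]
    nlinarith
  set Q : ℝ := 4 * m + (2 / c') ^ α with hQ
  have hQp : 0 < (2 / c') ^ α := by positivity
  have hQ4 : 4 * m ≤ Q := by linarith
  have hQ1 : 4 ≤ Q := by linarith
  have hQ2 : (2 / c') ^ α ≤ Q := by linarith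
  refine ⟨M, (4 / κ + 1) * Q, hM0, by positivity, ?_⟩
  intro z hz hzE
  obtain ⟨hd, hdn, hd1, hdd⟩ := dfacts H z hzE
  set d := infDist z (Eset ζ) with hdef
  have hz1 : z ≠ 1 := by
    intro h; apply hzE; rw [h]; exact mem_insert _ _
  set τ := ‖1 - z‖ with hτ
  have hτ0 : 0 < τ := by
    rw [hτ]; exact norm_pos_iff.2 (sub_ne_zero.2 (Ne.symm hz1))
  have hτ2 : τ ≤ 2 := by
    rw [hτ]
    refine (norm_sub_le _ _).trans ?_
    rw [norm_one]; linarith
  obtain ⟨F, hF, hFs, hFd, hFr⟩ := H.master z hz hz1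
  obtain ⟨hsn, hs⟩ := ker_summable h0 h1 H z hz hzE
  set t : ι → ℂ := fun n => ker α (ρ n) (1 - z * (starRingEnd ℂ) (ζ n)) with ht
  have hw : ∀ n, 0 ≤ (1 - z * (starRingEnd ℂ) (ζ n)).re ∧
      ‖1 - z * (starRingEnd ℂ) (ζ n)‖ = ‖z - ζ n‖ := fun n => wfacts z (ζ n) hz (H.circ n)
  have hD : ∀ n, 0 < ‖z - ζ n‖ := fun n => hd.trans_le (hdn n)
  have hw0 : ∀ n, (1 - z * (starRingEnd ℂ) (ζ n)) ≠ 0 := by
    intro n
    rw [← norm_pos_iff, (hw n).2]; exact hD n
  have htn : ∀ n, ‖t n‖ ≤ ρ n / ‖z - ζ n‖ := by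
    intro n
    have := (ker_norm_le α (ρ n) h0 h1 (H.ρpos n) _ (hw n).1 (hw0 n)).1
    rw [(hw n).2] at this
    exact this
  have hsum : ∀ s : Finset ι, (∀ n ∈ s, n ∉ F) → ∑ n ∈ s, ‖t n‖ ≤ S / τ := by
    intro s hs'
    refine (Finset.sum_le_sum (fun n _ => htn n)).trans (hFs s hs')
  have hG : GG α M ρ ζ z = (M : ℂ) / (1 - z) + ∑' n, t n := rfl
  -- distance facts: either τ ≤ 2 d or a point
  -- Case I conclusion
  have concI : 1 / τ ≤ ‖1 + GG α M ρ ζ z‖ → τ ≤ Q * d ^ α →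
      ‖(1 + GG α M ρ ζ z)⁻¹‖ ≤ (4 / κ + 1) * Q * d ^ α ∧
      ‖(1 + GG α M ρ ζ z)⁻¹‖ ≤ (4 / κ + 1) * Q * τ := by
    intro ha hb
    have e1 : ‖(1 + GG α M ρ ζ z)⁻¹‖ ≤ τ := by
      rw [norm_inv, inv_le_comm₀ (lt_of_lt_of_le (by positivity) ha) hτ0, ← one_div]
      exact ha
    have e2 : (1:ℝ) ≤ 4 / κ + 1 := by
      have : 0 < 4 / κ := by positivity
      linarith
    constructor
    · calc ‖(1 + GG α M ρ ζ z)⁻¹‖ ≤ 1 * (Q * d ^ α) := by rw [one_mul]; exact e1.trans hb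
        _ ≤ (4 / κ + 1) * (Q * d ^ α) := by gcongr
        _ = _ := by ring
    · calc ‖(1 + GG α M ρ ζ z)⁻¹‖ ≤ 1 * 1 * τ := by rw [one_mul, one_mul]; exact e1
        _ ≤ (4 / κ + 1) * Q * τ := by
          gcongr
          linarith
  rcases hF.eq_empty_or_singleton with hF0 | ⟨k, hFk⟩
  · -- F = ∅
    have hR : ‖∑' n, t n‖ ≤ S / τ := by
      have := A3_tsum t hsn (S / τ) (by positivity) F hsum
      simpa [hF0] using this
    apply concI
    · rw [hG]
      have := A3_caseI M S m τ z (∑' n, t n) 0 hτ hτ0 hτ2 hM0 hM hR (by simp; positivity)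
      simpa using this
    · rcases hdd with h | ⟨n, hn⟩
      · calc τ ≤ 4 * d ^ α := A3_tau h0 h1 τ d hτ0 hτ2 hd h
          _ ≤ Q * d ^ α := by gcongr
      · have h2 : c' * τ ^ (1/α) ≤ 2 * d := by
          calc c' * τ ^ (1/α) ≤ c * τ ^ (1/α) := by gcongr
            _ ≤ ‖z - ζ n‖ := hFd n (by simp [hF0])
            _ ≤ 2 * d := hn
        calc τ ≤ (2 / c') ^ α * d ^ α := A3_P h0 c' τ d hc'0 hτ0 hd h2
          _ ≤ Q * d ^ α := by gcongr
  · -- F = {k}
    have hsplit : ∑' n, t n = t k + ∑' n, (if n = k then 0 else t n) :=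
      hs.tsum_eq_add_tsum_ite k
    have hR : ‖∑' n, (if n = k then 0 else t n)‖ ≤ S / τ := by
      have := A3_tsum t hsn (S / τ) (by positivity) F hsum
      simpa [hFk] using this
    set D := ‖z - ζ k‖ with hDk
    have hD0 : 0 < D := hD k
    have hkF : k ∈ F := by rw [hFk]; exact mem_singleton k
    by_cases hT : ‖t k‖ ≤ m / τ
    · apply concI
      · rw [hG, hsplit]
        exact A3_caseI M S m τ z _ (t k) hτ hτ0 hτ2 hM0 hM hR hT
      · -- distance
        have hstep : τ / m ≤ D ^ α + D / ρ k := by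
          have hx : 0 < ‖(1 - z * (starRingEnd ℂ) (ζ k)) ^ (α : ℂ) +
              (1 - z * (starRingEnd ℂ) (ζ k)) / ((ρ k : ℝ) : ℂ)‖ := by
            refine lt_of_lt_of_le ?_ (ker_den_ge α (ρ k) h0 h1 (H.ρpos k) _ (hw k).1 (hw0 k)).1
            rw [(hw k).2]; positivity
          have e1 : ‖(1 - z * (starRingEnd ℂ) (ζ k)) ^ (α : ℂ) +
              (1 - z * (starRingEnd ℂ) (ζ k)) / ((ρ k : ℝ) : ℂ)‖ ≤ D ^ α + D / ρ k := by
            refine (norm_add_le _ _).trans ?_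
            rw [cpow_norm α _ (hw0 k), norm_div, (hw k).2, Complex.norm_real, Real.norm_eq_abs,
              abs_of_pos (H.ρpos k)]
          refine le_trans ?_ e1
          have e2 : ‖(1 - z * (starRingEnd ℂ) (ζ k)) ^ (α : ℂ) +
              (1 - z * (starRingEnd ℂ) (ζ k)) / ((ρ k : ℝ) : ℂ)‖⁻¹ ≤ m / τ := by
            have : ‖t k‖ = ‖(1 - z * (starRingEnd ℂ) (ζ k)) ^ (α : ℂ) +
              (1 - z * (starRingEnd ℂ) (ζ k)) / ((ρ k : ℝ) : ℂ)‖⁻¹ := by
              rw [ht]; simp only [ker, norm_inv]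
            rw [← this]; exact hT
          rw [inv_le_comm₀ hx (by positivity)] at e2
          rwa [inv_div] at e2
        rcases hdd with h | ⟨n, hn⟩
        · calc τ ≤ 4 * d ^ α := A3_tau h0 h1 τ d hτ0 hτ2 hd h
            _ ≤ Q * d ^ α := by gcongr
        · by_cases hnk : n = k
          · subst hnk
            by_cases hcase : τ / (2 * m) ≤ D ^ α
            · have e1 : τ ≤ 2 * m * D ^ α := by
                rw [div_le_iff₀ (by positivity)] at hcase
                linarith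
              calc τ ≤ 2 * m * D ^ α := e1
                _ ≤ 2 * m * (2 * d) ^ α := by gcongr
                _ ≤ 2 * m * (2 * d ^ α) := by
                  gcongr
                  exact A3_two h0 h1 d hd.le
                _ = 4 * m * d ^ α := by ring
                _ ≤ Q * d ^ α := by gcongr
            · push Not at hcase
              have e1 : τ / (2 * m) ≤ D / ρ n := by
                have : τ / m = τ / (2 * m) + τ / (2 * m) := by field_simp; ring
                linarith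
              have e2 : τ / (2 * m) * ρ n ≤ D := by
                rwa [le_div_iff₀ (H.ρpos n)] at e1
              have e3 : c * τ ^ β ≤ ρ n := hFr n hkF
              have e4 : τ ^ (1/α) = τ * τ ^ β := by
                rw [hβ, show (1/α : ℝ) = 1 + (1/α - 1) by ring, Real.rpow_add hτ0, Real.rpow_one]
                ring_nf
              have h2 : c' * τ ^ (1/α) ≤ 2 * d := by
                calc c' * τ ^ (1/α) = τ / (2 * m) * (c * τ ^ β) := by
                      rw [e4, hc']; ring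
                  _ ≤ τ / (2 * m) * ρ n := by gcongr
                  _ ≤ D := e2
                  _ ≤ 2 * d := hn
              calc τ ≤ (2 / c') ^ α * d ^ α := A3_P h0 c' τ d hc'0 hτ0 hd h2
                _ ≤ Q * d ^ α := by gcongr
          · have h2 : c' * τ ^ (1/α) ≤ 2 * d := by
              calc c' * τ ^ (1/α) ≤ c * τ ^ (1/α) := by gcongr
                _ ≤ ‖z - ζ n‖ := hFd n (by simp [hFk, hnk])
                _ ≤ 2 * d := hn
            calc τ ≤ (2 / c') ^ α * d ^ α := A3_P h0 c' τ d hc'0 hτ0 hd h2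
              _ ≤ Q * d ^ α := by gcongr
    · -- Case II
      push Not at hT
      have hden := (ker_den_ge α (ρ k) h0 h1 (H.ρpos k) _ (hw k).1 (hw0 k)).1
      rw [(hw k).2] at hden
      have hx : 0 < ‖(1 - z * (starRingEnd ℂ) (ζ k)) ^ (α : ℂ) +
          (1 - z * (starRingEnd ℂ) (ζ k)) / ((ρ k : ℝ) : ℂ)‖ :=
        lt_of_lt_of_le (by positivity) hden
      have hDα : D ^ α < τ / m := by
        refine lt_of_le_of_lt hden ?_
        have : ‖t k‖ = ‖(1 - z * (starRingEnd ℂ) (ζ k)) ^ (α : ℂ) +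
              (1 - z * (starRingEnd ℂ) (ζ k)) / ((ρ k : ℝ) : ℂ)‖⁻¹ := by
          rw [ht]; simp only [ker, norm_inv]
        rw [this, lt_inv_comm₀ (by positivity) hx, inv_div] at hT
        exact hT
      have hDτ : D ^ α ≤ τ := by
        refine hDα.le.trans ?_
        rw [div_le_iff₀ hm0]
        nlinarith
      have hDρ : D ^ (1 - α) ≤ ρ k := by
        have e1 : D ^ (1 - α) = (D ^ α) ^ β := by
          rw [← Real.rpow_mul hD0.le]
          congr 1
          rw [hβ]; field_simp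
        rw [e1]
        calc (D ^ α) ^ β ≤ (τ / m) ^ β := Real.rpow_le_rpow (by positivity) hDα.le hβ0.le
          _ = τ ^ β / m ^ β := Real.div_rpow hτ0.le hm0.le _
          _ ≤ c * τ ^ β := by
            rw [div_le_iff₀ (by positivity)]
            have : 1 ≤ c * m ^ β := by
              rw [div_le_iff₀ hc] at hmβ
              linarith
            nlinarith [show 0 < τ ^ β by positivity]
          _ ≤ ρ k := hFr k hkF
      have hre := ker_re_ge α (ρ k) h0 h1 (H.ρpos k) _ (hw k).1 (hw0 k) (by rw [(hw k).2]; exact hDρ)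
      rw [(hw k).2] at hre
      have hre2 := GG_re_ge h0 h1 H M hM0 z hz hzE k
      have hnorm : κ / 4 * D ^ (-α) ≤ ‖1 + GG α M ρ ζ z‖ := by
        have e1 : κ / 4 * D ^ (-α) ≤ (1 + GG α M ρ ζ z).re := by
          rw [Complex.add_re, Complex.one_re]
          linarith
        exact e1.trans (Complex.re_le_norm _)
      have hinv : ‖(1 + GG α M ρ ζ z)⁻¹‖ ≤ 4 / κ * D ^ α := by
        rw [norm_inv]
        have e1 : 0 < κ / 4 * D ^ (-α) := by positivity
        rw [inv_le_comm₀ (lt_of_lt_of_le e1 hnorm) (by positivity)]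
        refine le_trans (le_of_eq ?_) hnorm
        rw [Real.rpow_neg hD0.le, mul_inv, inv_div]
      have hDd : D ^ α ≤ Q * d ^ α := by
        rcases hdd with h | ⟨n, hn⟩
        · calc D ^ α ≤ τ := hDτ
            _ ≤ 4 * d ^ α := A3_tau h0 h1 τ d hτ0 hτ2 hd h
            _ ≤ Q * d ^ α := by gcongr
        · by_cases hnk : n = k
          · subst hnk
            calc D ^ α ≤ (2 * d) ^ α := by gcongr
              _ ≤ 2 * d ^ α := A3_two h0 h1 d hd.le
              _ ≤ Q * d ^ α := by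
                gcongr
                linarith
          · have h2 : c' * τ ^ (1/α) ≤ 2 * d := by
              calc c' * τ ^ (1/α) ≤ c * τ ^ (1/α) := by gcongr
                _ ≤ ‖z - ζ n‖ := hFd n (by simp [hFk, hnk])
                _ ≤ 2 * d := hn
            calc D ^ α ≤ τ := hDτ
              _ ≤ (2 / c') ^ α * d ^ α := A3_P h0 c' τ d hc'0 hτ0 hd h2
              _ ≤ Q * d ^ α := by gcongr
      have hk4 : 4 / κ ≤ 4 / κ + 1 := by linarith
      constructor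
      · calc ‖(1 + GG α M ρ ζ z)⁻¹‖ ≤ 4 / κ * D ^ α := hinv
          _ ≤ (4 / κ + 1) * (Q * d ^ α) := by gcongr
          _ = _ := by ring
      · calc ‖(1 + GG α M ρ ζ z)⁻¹‖ ≤ 4 / κ * D ^ α := hinv
          _ ≤ (4 / κ + 1) * (Q * τ) := by
            gcongr
            calc D ^ α ≤ 1 * τ := by rw [one_mul]; exact hDτ
              _ ≤ Q * τ := by
                gcongr
                linarith
          _ = _ := by ring

end H428PK
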