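import Pool.Agent.H428R2.PK.Defs
import Pool.Agent.H428R2.PK.K1
namespace H428PK
open Complex Metric Set Filter Topology

/- K3: |v^α - w^α| ≤ 2|v-w||w|^{α-1} and |ker v - ker w| ≤ 16|v-w| min(|w|^{-α-1}, ρ/|w|²) for
|v-w| ≤ |w|/2 -/

theorem K3_norm_ge {v w : ℂ} (h : ‖v - w‖ ≤ ‖w‖ / 2) : ‖w‖ / 2 ≤ ‖v‖ := by
  have h1 : ‖w‖ ≤ ‖w - v‖ + ‖v‖ := by simpa using norm_add_le (w - v) v
  rw [norm_sub_rev] at h1
  linarith

theorem cpow_sub_le (α : ℝ) (h0 : 0 < α) (h1 : α < 1) (v w : ℂ) (hv : 0 ≤ v.re) (hw : 0 ≤ w.re)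
    (hw0 : w ≠ 0) (h : ‖v - w‖ ≤ ‖w‖ / 2) :
    ‖v ^ (α : ℂ) - w ^ (α : ℂ)‖ ≤ 2 * ‖v - w‖ * ‖w‖ ^ (α - 1) := by
  have hwp : 0 < ‖w‖ := norm_pos_iff.2 hw0
  set s : Set ℂ := {u : ℂ | 0 ≤ u.re} ∩ closedBall w (‖w‖ / 2) with hs
  have hconv : Convex ℝ s := by
    refine Convex.inter ?_ (convex_closedBall _ _)
    exact convex_halfSpace_re_ge 0
  have hpos : ∀ u ∈ s, ‖w‖ / 2 ≤ ‖u‖ := by
    intro u hu
    refine K3_norm_ge ?_
    have := hu.2
    rwa [mem_closedBall, dist_eq_norm] at this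
  have hslit : ∀ u ∈ s, u ∈ slitPlane := by
    intro u hu
    have h2 := hpos u hu
    have h3 : 0 ≤ u.re := hu.1
    rw [mem_slitPlane_iff]
    rcases h3.lt_or_eq with h4 | h4
    · exact Or.inl h4
    · right
      intro h5
      have : u = 0 := Complex.ext h4.symm h5
      rw [this, norm_zero] at h2
      linarith
  have key := Convex.norm_image_sub_le_of_norm_hasDerivWithin_le (s := s)
    (f := fun u : ℂ => u ^ (α : ℂ)) (f' := fun u : ℂ => (α : ℂ) * u ^ ((α : ℂ) - 1) * 1)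
    (C := 2 * ‖w‖ ^ (α - 1)) (x := w) (y := v)
    (fun u hu => ((hasDerivAt_id u).cpow_const (hslit u hu)).hasDerivWithinAt) ?_ hconv
    ⟨hw, mem_closedBall_self (by positivity)⟩ ⟨hv, by rwa [mem_closedBall, dist_eq_norm]⟩
  · refine key.trans (le_of_eq ?_)
    ring
  · intro u hu
    have h2 := hpos u hu
    have hu0 : u ≠ 0 := by
      rintro rfl
      rw [norm_zero] at h2
      linarith
    have e1 : ‖(α : ℂ) * u ^ ((α : ℂ) - 1) * 1‖ = α * ‖u‖ ^ (α - 1) := by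
      rw [mul_one, norm_mul, Complex.norm_real, Real.norm_of_nonneg h0.le,
        show ((α : ℂ) - 1) = ((α - 1 : ℝ) : ℂ) by push_cast; ring, cpow_norm _ _ hu0]
    rw [e1]
    have e2 : ‖u‖ ^ (α - 1) ≤ (‖w‖ / 2) ^ (α - 1) :=
      Real.rpow_le_rpow_of_nonpos (by linarith) h2 (by linarith)
    have e3 : (‖w‖ / 2) ^ (α - 1) ≤ 2 * ‖w‖ ^ (α - 1) := by
      rw [div_eq_mul_inv, Real.mul_rpow hwp.le (by norm_num), mul_comm]
      refine mul_le_mul_of_nonneg_right ?_ (by positivity)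
      rw [Real.inv_rpow (by norm_num), ← Real.rpow_neg (by norm_num)]
      calc (2 : ℝ) ^ (-(α - 1)) ≤ 2 ^ (1 : ℝ) :=
            Real.rpow_le_rpow_of_exponent_le (by norm_num) (by linarith)
        _ = 2 := Real.rpow_one 2
    calc α * ‖u‖ ^ (α - 1) ≤ 1 * ‖u‖ ^ (α - 1) :=
          mul_le_mul_of_nonneg_right h1.le (by positivity)
      _ ≤ 2 * ‖w‖ ^ (α - 1) := by rw [one_mul]; exact e2.trans e3

theorem ker_sub_le (α ρ : ℝ) (h0 : 0 < α) (h1 : α < 1) (hρ : 0 < ρ) (v w : ℂ) (hv : 0 ≤ v.re)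
    (hw : 0 ≤ w.re) (hw0 : w ≠ 0) (h : ‖v - w‖ ≤ ‖w‖ / 2) :
    ‖ker α ρ v - ker α ρ w‖ ≤ 16 * ‖v - w‖ * (ρ / ‖w‖ ^ 2) ∧
    ‖ker α ρ v - ker α ρ w‖ ≤ 16 * ‖v - w‖ * ‖w‖ ^ (-α - 1) := by
  have hwp : 0 < ‖w‖ := norm_pos_iff.2 hw0
  have hvn := K3_norm_ge h
  have hvp : 0 < ‖v‖ := by linarith
  have hv0 : v ≠ 0 := norm_pos_iff.1 hvp
  obtain ⟨w1, w2⟩ := ker_den_ge α ρ h0 h1 hρ w hw hw0
  obtain ⟨v1, v2⟩ := ker_den_ge α ρ h0 h1 hρ v hv hv0
  have hsub := cpow_sub_le α h0 h1 v w hv hw hw0 h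
  set δ := ‖v - w‖ with hδ
  have hδ0 : 0 ≤ δ := norm_nonneg _
  set X := ‖w‖ ^ α with hX
  have hXp : 0 < X := Real.rpow_pos_of_pos hwp _
  set Y := ‖w‖ / ρ with hY
  have hYp : 0 < Y := div_pos hwp hρ
  set xw : ℂ := w ^ (α : ℂ) + w / (ρ : ℂ) with hxw
  set xv : ℂ := v ^ (α : ℂ) + v / (ρ : ℂ) with hxv
  have hxw0 : xw ≠ 0 := by
    intro h'
    rw [h', norm_zero] at w2
    linarith
  -- lower bounds
  have v1' : X / 2 ≤ ‖xv‖ := by
    refine le_trans ?_ v1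
    have e1 : (‖w‖ / 2) ^ α ≤ ‖v‖ ^ α := Real.rpow_le_rpow (by positivity) hvn h0.le
    refine le_trans ?_ e1
    rw [Real.div_rpow hwp.le (by norm_num), hX]
    refine div_le_div_of_nonneg_left (by positivity) (by positivity) ?_
    calc (2 : ℝ) ^ α ≤ 2 ^ (1 : ℝ) :=
          Real.rpow_le_rpow_of_exponent_le (by norm_num) h1.le
      _ = 2 := Real.rpow_one 2
  have v2' : Y / 2 ≤ ‖xv‖ := by
    refine le_trans ?_ v2
    rw [hY, div_right_comm]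
    exact div_le_div_of_nonneg_right hvn hρ.le
  have hxv0 : xv ≠ 0 := by
    intro h'
    rw [h', norm_zero] at v2'
    linarith
  have hdiff : ‖xw - xv‖ ≤ δ / ‖w‖ * (2 * X + Y) := by
    have e1 : xw - xv = -(v ^ (α : ℂ) - w ^ (α : ℂ)) - (v - w) / (ρ : ℂ) := by
      rw [hxw, hxv]; ring
    rw [e1]
    refine (norm_sub_le _ _).trans ?_
    rw [norm_neg, norm_div, Complex.norm_real, Real.norm_of_nonneg hρ.le, ← hδ]
    have e2 : δ / ‖w‖ * (2 * X + Y) = 2 * δ * (X / ‖w‖) + δ / ρ := by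
      rw [hY]; field_simp
    rw [e2]
    have e3 : ‖w‖ ^ (α - 1) = X / ‖w‖ := by
      rw [Real.rpow_sub hwp, Real.rpow_one]
    rw [e3] at hsub
    linarith
  have hmain : ‖ker α ρ v - ker α ρ w‖ = ‖xw - xv‖ / (‖xv‖ * ‖xw‖) := by
    have : ker α ρ v - ker α ρ w = (xw - xv) / (xv * xw) := by
      unfold ker
      rw [← hxv, ← hxw]
      field_simp
    rw [this, norm_div, norm_mul]
  have hgen : ∀ m : ℝ, 0 < m → m ≤ max X Y → ‖ker α ρ v - ker α ρ w‖ ≤ 6 * (δ / ‖w‖) / m := by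
    intro m hm hmM
    rw [hmain]
    have hM : 0 < max X Y := lt_max_of_lt_left hXp
    have a1 : max X Y ≤ ‖xw‖ := max_le w1 w2
    have a2 : max X Y / 2 ≤ ‖xv‖ := by
      rcases max_cases X Y with h' | h' <;> rw [h'.1]
      · exact v1'
      · exact v2'
    have a3 : 2 * X + Y ≤ 3 * max X Y := by
      have := le_max_left X Y
      have := le_max_right X Y
      linarith
    have a4 : 0 ≤ δ / ‖w‖ := by positivity
    calc ‖xw - xv‖ / (‖xv‖ * ‖xw‖) ≤ (δ / ‖w‖ * (3 * max X Y)) / (max X Y / 2 * max X Y) := by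
          refine div_le_div₀ (by positivity) (hdiff.trans (mul_le_mul_of_nonneg_left a3 a4))
            (by positivity) (mul_le_mul a2 a1 hM.le (norm_nonneg _))
      _ = 6 * (δ / ‖w‖) / max X Y := by
          field_simp
          ring
      _ ≤ 6 * (δ / ‖w‖) / m := div_le_div_of_nonneg_left (by positivity) hm hmM
  constructor
  · refine (hgen Y hYp (le_max_right _ _)).trans ?_
    rw [hY]
    have e : 6 * (δ / ‖w‖) / (‖w‖ / ρ) = 6 * δ * (ρ / ‖w‖ ^ 2) := by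
      field_simp
    rw [e]
    have : 0 ≤ ρ / ‖w‖ ^ 2 := by positivity
    nlinarith [mul_nonneg hδ0 this]
  · refine (hgen X hXp (le_max_left _ _)).trans ?_
    have e : 6 * (δ / ‖w‖) / X = 6 * δ * ‖w‖ ^ (-α - 1) := by
      rw [hX, Real.rpow_sub hwp, Real.rpow_neg hwp.le, Real.rpow_one]
      field_simp
    rw [e]
    have : 0 ≤ ‖w‖ ^ (-α - 1) := by positivity
    nlinarith [mul_nonneg hδ0 this]

end H428PK
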