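import Pool.Agent.H428R2.PK.Defs
import Pool.Agent.H428R2.PK.K3
import Pool.Agent.H428R2.PK.A1
import Pool.Agent.H428R2.PK.A2
namespace H428PK
open Complex Metric Set Filter Topology

/- A4: DIFFERENCE BOUND for G -/

private theorem A4_first {M τ δ : ℝ} (hM : 0 < M) (z z' : ℂ) (hτ : τ = ‖1 - z‖)
    (hδ : δ = ‖z' - z‖) (hτ0 : 0 < τ) (h : δ ≤ τ / 2) :
    ‖(M : ℂ) / (1 - z') - (M : ℂ) / (1 - z)‖ ≤ 2 * M * δ / τ ^ 2 := by
  have h1 : τ ≤ ‖1 - z'‖ + δ := by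
    have : (1 - z) = (1 - z') + (z' - z) := by ring
    rw [hτ, hδ, this]
    exact norm_add_le _ _
  have h2 : τ / 2 ≤ ‖1 - z'‖ := by linarith
  have h3 : 0 < ‖1 - z'‖ := by linarith
  have hz : (1 - z) ≠ 0 := by
    rw [← norm_pos_iff, ← hτ]
    exact hτ0
  have hz' : (1 - z') ≠ 0 := norm_pos_iff.1 h3
  have e : (M : ℂ) / (1 - z') - (M : ℂ) / (1 - z) = (M : ℂ) * (z' - z) / ((1 - z') * (1 - z)) := by
    field_simp
    ring
  rw [e, norm_div, norm_mul, norm_mul, ← hτ, ← hδ, Complex.norm_real, Real.norm_of_nonneg hM.le]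
  have hδ0 : 0 ≤ δ := by rw [hδ]; exact norm_nonneg _
  rw [div_le_div_iff₀ (by positivity) (by positivity)]
  have h4 : τ ≤ 2 * ‖1 - z'‖ := by linarith
  have h5 : 0 ≤ M * δ * τ := by positivity
  nlinarith [mul_le_mul_of_nonneg_left h4 h5]

theorem GG_sub {α : ℝ} (h0 : 0 < α) (h1 : α < 1) {ι : Type} {ρ : ι → ℝ} {ζ : ι → ℂ}
    {S c : ℝ} (H : Good α ρ ζ S c) (M : ℝ) (hM : 0 < M) :
    ∃ C : ℝ, 0 < C ∧ ∀ z z' : ℂ, ‖z‖ ≤ 1 → ‖z'‖ ≤ 1 → z ∉ Eset ζ → z' ∉ Eset ζ →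
      ‖z' - z‖ ≤ infDist z (Eset ζ) / 2 →
      ‖GG α M ρ ζ z' - GG α M ρ ζ z‖ ≤ C * ‖z' - z‖ *
        (1 / ‖1 - z‖ ^ 2 + 1 / (infDist z (Eset ζ) * ‖1 - z‖) + infDist z (Eset ζ) ^ (-α - 1)) := by
  have hS := H.S0
  refine ⟨2 * M + 16 * S + 16, by positivity, ?_⟩
  intro z z' hz hz' hzE hzE' hdist
  obtain ⟨hd0, hdn, hd1, -⟩ := dfacts H z hzE
  set d := infDist z (Eset ζ) with hd
  set τ := ‖1 - z‖ with hτ
  set δ := ‖z' - z‖ with hδ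
  have hδ0 : 0 ≤ δ := norm_nonneg _
  have hτ0 : 0 < τ := lt_of_lt_of_le hd0 hd1
  have hz1 : z ≠ 1 := by
    intro h
    apply hzE
    rw [h]
    exact mem_insert _ _
  obtain ⟨F, hF1, hF2, -, -⟩ := H.master z hz hz1
  -- termwise bounds
  have hterm : ∀ n, ‖ker α (ρ n) (1 - z' * (starRingEnd ℂ) (ζ n)) -
      ker α (ρ n) (1 - z * (starRingEnd ℂ) (ζ n))‖ ≤ 16 * δ / d * (ρ n / ‖z - ζ n‖) ∧
      ‖ker α (ρ n) (1 - z' * (starRingEnd ℂ) (ζ n)) -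
      ker α (ρ n) (1 - z * (starRingEnd ℂ) (ζ n))‖ ≤ 16 * δ * d ^ (-α - 1) := by
    intro n
    obtain ⟨w1, w2⟩ := wfacts z (ζ n) hz (H.circ n)
    obtain ⟨v1, v2⟩ := wfacts z' (ζ n) hz' (H.circ n)
    have hsub := wsub z z' (ζ n) (H.circ n)
    have hdw := hdn n
    have hwp : 0 < ‖z - ζ n‖ := lt_of_lt_of_le hd0 hdw
    have hw0 : (1 - z * (starRingEnd ℂ) (ζ n)) ≠ 0 := by
      rw [← norm_pos_iff, w2]
      exact hwp
    obtain ⟨k1, k2⟩ := ker_sub_le α (ρ n) h0 h1 (H.ρpos n) _ _ v1 w1 hw0 (by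
      rw [hsub, w2]
      linarith)
    rw [hsub, w2] at k1 k2
    have hρ := H.ρpos n
    refine ⟨k1.trans ?_, k2.trans ?_⟩
    · have e1 : ρ n / ‖z - ζ n‖ ^ 2 ≤ 1 / d * (ρ n / ‖z - ζ n‖) := by
        have e2 : ρ n / ‖z - ζ n‖ ^ 2 = 1 / ‖z - ζ n‖ * (ρ n / ‖z - ζ n‖) := by
          field_simp
        rw [e2]
        refine mul_le_mul_of_nonneg_right ?_ (by positivity)
        exact one_div_le_one_div_of_le hd0 hdw
      calc 16 * δ * (ρ n / ‖z - ζ n‖ ^ 2) ≤ 16 * δ * (1 / d * (ρ n / ‖z - ζ n‖)) :=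
            mul_le_mul_of_nonneg_left e1 (by positivity)
        _ = 16 * δ / d * (ρ n / ‖z - ζ n‖) := by ring
    · refine mul_le_mul_of_nonneg_left ?_ (by positivity)
      exact Real.rpow_le_rpow_of_nonpos hd0 hdw (by linarith)
  obtain ⟨-, sz⟩ := ker_summable h0 h1 H z hz hzE
  obtain ⟨-, sz'⟩ := ker_summable h0 h1 H z' hz' hzE'
  have ssub := sz'.sub sz
  have B0 : 0 ≤ 16 * δ * (S / (d * τ) + d ^ (-α - 1)) := by positivity
  have hsum : ∀ s : Finset ι, ∑ n ∈ s, ‖ker α (ρ n) (1 - z' * (starRingEnd ℂ) (ζ n)) -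
      ker α (ρ n) (1 - z * (starRingEnd ℂ) (ζ n))‖ ≤ 16 * δ * (S / (d * τ) + d ^ (-α - 1)) := by
    classical
    intro s
    rw [← Finset.sum_filter_add_sum_filter_not s (fun n => n ∉ F)]
    have p1 : ∑ n ∈ s.filter (fun n => n ∉ F), ‖ker α (ρ n) (1 - z' * (starRingEnd ℂ) (ζ n)) -
        ker α (ρ n) (1 - z * (starRingEnd ℂ) (ζ n))‖ ≤ 16 * δ / d * (S / τ) := by
      calc ∑ n ∈ s.filter (fun n => n ∉ F), ‖ker α (ρ n) (1 - z' * (starRingEnd ℂ) (ζ n)) -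
            ker α (ρ n) (1 - z * (starRingEnd ℂ) (ζ n))‖ ≤
            ∑ n ∈ s.filter (fun n => n ∉ F), 16 * δ / d * (ρ n / ‖z - ζ n‖) :=
            Finset.sum_le_sum fun n _ => (hterm n).1
        _ = 16 * δ / d * ∑ n ∈ s.filter (fun n => n ∉ F), ρ n / ‖z - ζ n‖ := by
            rw [Finset.mul_sum]
        _ ≤ 16 * δ / d * (S / τ) := by
            refine mul_le_mul_of_nonneg_left ?_ (by positivity)
            exact hF2 _ fun n hn => (Finset.mem_filter.1 hn).2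
    have p2 : ∑ n ∈ s.filter (fun n => ¬ n ∉ F), ‖ker α (ρ n) (1 - z' * (starRingEnd ℂ) (ζ n)) -
        ker α (ρ n) (1 - z * (starRingEnd ℂ) (ζ n))‖ ≤ 16 * δ * d ^ (-α - 1) := by
      have hb : 0 ≤ 16 * δ * d ^ (-α - 1) := by positivity
      have hcard : (s.filter (fun n => ¬ n ∉ F)).card ≤ 1 := by
        rw [Finset.card_le_one]
        intro a ha b hb
        exact hF1 (not_not.1 (Finset.mem_filter.1 ha).2) (not_not.1 (Finset.mem_filter.1 hb).2)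
      calc ∑ n ∈ s.filter (fun n => ¬ n ∉ F), ‖ker α (ρ n) (1 - z' * (starRingEnd ℂ) (ζ n)) -
            ker α (ρ n) (1 - z * (starRingEnd ℂ) (ζ n))‖ ≤
            (s.filter (fun n => ¬ n ∉ F)).card • (16 * δ * d ^ (-α - 1)) :=
            Finset.sum_le_card_nsmul _ _ _ fun n _ => (hterm n).2
        _ ≤ 1 • (16 * δ * d ^ (-α - 1)) := nsmul_le_nsmul_left hb hcard
        _ = 16 * δ * d ^ (-α - 1) := one_nsmul _
    calc _ ≤ 16 * δ / d * (S / τ) + 16 * δ * d ^ (-α - 1) := add_le_add p1 p2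
      _ = 16 * δ * (S / (d * τ) + d ^ (-α - 1)) := by
        field_simp
  have htsum : ‖∑' n, (ker α (ρ n) (1 - z' * (starRingEnd ℂ) (ζ n)) -
      ker α (ρ n) (1 - z * (starRingEnd ℂ) (ζ n)))‖ ≤ 16 * δ * (S / (d * τ) + d ^ (-α - 1)) :=
    (norm_tsum_le_tsum_norm ssub.norm).trans (Summable.tsum_le_of_sum_le ssub.norm hsum)
  have e : GG α M ρ ζ z' - GG α M ρ ζ z = ((M : ℂ) / (1 - z') - (M : ℂ) / (1 - z)) +
      ∑' n, (ker α (ρ n) (1 - z' * (starRingEnd ℂ) (ζ n)) -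
      ker α (ρ n) (1 - z * (starRingEnd ℂ) (ζ n))) := by
    rw [Summable.tsum_sub sz' sz]
    unfold GG
    ring
  have hfirst := A4_first hM z z' hτ hδ hτ0 (by linarith)
  have p0 : 0 ≤ d ^ (-α - 1) := by positivity
  have p1 : 0 ≤ 1 / τ ^ 2 := by positivity
  have p2 : 0 ≤ 1 / (d * τ) := by positivity
  rw [e]
  calc _ ≤ 2 * M * δ / τ ^ 2 + 16 * δ * (S / (d * τ) + d ^ (-α - 1)) :=
        (norm_add_le _ _).trans (add_le_add hfirst htsum)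
    _ = δ * (2 * M * (1 / τ ^ 2) + 16 * S * (1 / (d * τ)) + 16 * d ^ (-α - 1)) := by
        ring
    _ ≤ δ * ((2 * M + 16 * S + 16) * (1 / τ ^ 2 + 1 / (d * τ) + d ^ (-α - 1))) := by
        refine mul_le_mul_of_nonneg_left ?_ hδ0
        nlinarith [mul_nonneg hM.le p1, mul_nonneg hM.le p2, mul_nonneg hM.le p0,
          mul_nonneg hS.le p1, mul_nonneg hS.le p2, mul_nonneg hS.le p0]
    _ = _ := by ring

end H428PK
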