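import Pool.Agent.H428R2.PK.Defs

namespace H428PK
open Complex Metric Set Filter Topology

/- A5: HOLDER ESTIMATE for Γ on the closed disc (abstract)

PROOF NOTES: Γ = Gam E G. d(z) = infDist z E, τ = ‖1-z‖, δ = ‖z'-z‖. Always ‖Γ z‖ ≤ C d(z)^α (also on E) and d(z') ≤ d(z)+δ (Metric.infDist_le_infDist_add_dist), τ' ≤ τ+δ. WLOG structure: Case 1: δ > d(z)/2: then d(z) ≤ 2δ, d(z') ≤ 3δ, ‖Γ z' - Γ z‖ ≤ C(2^α+3^α)δ^α. Case 2: δ ≤ d(z)/2 and z ∉ E: (if z ∈ E then d=0, δ=0, z'=z trivial; if δ = 0 trivial); z' ∉ E as d(z') ≥ d(z)/2 > 0. Γ z' - Γ z = (1+G z')⁻¹(1+G z)⁻¹(G z - G z'), ‖(1+G z)⁻¹‖ ≤ C m, m = min(d^α, τ), ‖(1+G z')⁻¹‖ ≤ C min(d'^α, τ') ≤ C (3/2) m. So ≤ (3/2)C²C' δ m²(1/τ² + 1/(dτ) + d^(-α-1)) with m²/τ² ≤ 1, m²/(dτ) ≤ d^α τ/(dτ) = d^(α-1), m² d^(-α-1) ≤ d^(2α-α-1) = d^(α-1); and 1 ≤ 2 d^(α-1) as d ≤ 2 [d ≤ τ ≤ 2, 1 ∈ E]. So ≤ 6C²C' δ d^(α-1) ≤ 6C²C' δ (2δ)^(α-1) ≤ 6C²C' δ^α (if δ>0; 2^(α-1)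 ≤ 1).
-/

/-- abstract: the two bounds for `1/(1+G)` and the difference bound give a Hölder estimate -/
theorem holder {α : ℝ} (h0 : 0 < α) (h1 : α < 1) (E : Set ℂ) (hE : IsClosed E)
    (hEs : E ⊆ sphere 0 1) (h1E : (1:ℂ) ∈ E) (G : ℂ → ℂ)
    (hG0 : ∀ z : ℂ, ‖z‖ ≤ 1 → z ∉ E → 1 + G z ≠ 0) (C : ℝ) (hC : 0 < C)
    (hlow : ∀ z : ℂ, ‖z‖ ≤ 1 → z ∉ E →
      ‖(1 + G z)⁻¹‖ ≤ C * infDist z E ^ α ∧ ‖(1 + G z)⁻¹‖ ≤ C * ‖1 - z‖) (C' : ℝ) (hC' : 0 < C')
    (hdiff : ∀ z z' : ℂ, ‖z‖ ≤ 1 → ‖z'‖ ≤ 1 → z ∉ E → z' ∉ E → ‖z' - z‖ ≤ infDist z E / 2 →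
      ‖G z' - G z‖ ≤ C' * ‖z' - z‖ *
        (1 / ‖1 - z‖ ^ 2 + 1 / (infDist z E * ‖1 - z‖) + infDist z E ^ (-α - 1))) :
    ∃ K : ℝ, 0 < K ∧ ∀ z z' : ℂ, ‖z‖ ≤ 1 → ‖z'‖ ≤ 1 →
      ‖Gam E G z' - Gam E G z‖ ≤ K * ‖z' - z‖ ^ α := by
  have hGam : ∀ w : ℂ, ‖w‖ ≤ 1 → ‖Gam E G w‖ ≤ C * infDist w E ^ α := by
    intro w hw
    by_cases hwE : w ∈ E
    · simp only [Gam, hwE, if_true, norm_zero]
      exact mul_nonneg hC.le (Real.rpow_nonneg infDist_nonneg _)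
    · simp only [Gam, hwE, if_false]
      exact (hlow w hw hwE).1
  refine ⟨5 * C + 6 * C ^ 2 * C', by positivity, ?_⟩
  intro z z' hz hz'
  set d := infDist z E with hd
  set δ := ‖z' - z‖ with hδ
  have hd0 : 0 ≤ d := infDist_nonneg
  have hδ0 : 0 ≤ δ := norm_nonneg _
  have hd' : infDist z' E ≤ d + δ := by
    have h := infDist_le_infDist_add_dist (s := E) (x := z') (y := z)
    rw [dist_eq_norm] at h
    exact h
  have hd'0 : 0 ≤ infDist z' E := infDist_nonneg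
  by_cases hcase : d / 2 < δ
  · have e1 : ‖Gam E G z‖ ≤ C * (2 * δ ^ α) := by
      refine (hGam z hz).trans (mul_le_mul_of_nonneg_left ?_ hC.le)
      calc d ^ α ≤ (2 * δ) ^ α := Real.rpow_le_rpow hd0 (by linarith) h0.le
        _ = 2 ^ α * δ ^ α := Real.mul_rpow (by norm_num) hδ0
        _ ≤ 2 * δ ^ α := by
            refine mul_le_mul_of_nonneg_right ?_ (Real.rpow_nonneg hδ0 _)
            calc (2:ℝ) ^ α ≤ 2 ^ (1:ℝ) := Real.rpow_le_rpow_of_exponent_le (by norm_num) h1.le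
              _ = 2 := Real.rpow_one _
    have e2 : ‖Gam E G z'‖ ≤ C * (3 * δ ^ α) := by
      refine (hGam z' hz').trans (mul_le_mul_of_nonneg_left ?_ hC.le)
      calc infDist z' E ^ α ≤ (3 * δ) ^ α := Real.rpow_le_rpow hd'0 (by linarith) h0.le
        _ = 3 ^ α * δ ^ α := Real.mul_rpow (by norm_num) hδ0
        _ ≤ 3 * δ ^ α := by
            refine mul_le_mul_of_nonneg_right ?_ (Real.rpow_nonneg hδ0 _)
            calc (3:ℝ) ^ α ≤ 3 ^ (1:ℝ) := Real.rpow_le_rpow_of_exponent_le (by norm_num) h1.le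
              _ = 3 := Real.rpow_one _
    have e3 : 0 ≤ δ ^ α := Real.rpow_nonneg hδ0 _
    have e4 : 0 ≤ C ^ 2 * C' * δ ^ α := by positivity
    calc ‖Gam E G z' - Gam E G z‖ ≤ ‖Gam E G z'‖ + ‖Gam E G z‖ := norm_sub_le _ _
      _ ≤ C * (3 * δ ^ α) + C * (2 * δ ^ α) := add_le_add e2 e1
      _ ≤ (5 * C + 6 * C ^ 2 * C') * δ ^ α := by nlinarith
  · push Not at hcase
    by_cases hδz : δ = 0
    · have hzz : z' = z := by
        have : z' - z = 0 := norm_eq_zero.mp hδz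
        exact sub_eq_zero.mp this
      rw [hzz, sub_self, norm_zero]
      exact mul_nonneg (by positivity) (Real.rpow_nonneg hδ0 _)
    have hδp : 0 < δ := lt_of_le_of_ne hδ0 (Ne.symm hδz)
    have hdp : 0 < d := by linarith
    have hzE : z ∉ E := by
      intro hmem
      have : d = 0 := infDist_zero_of_mem hmem
      linarith
    have hd'2 : d ≤ infDist z' E + δ := by
      have h := infDist_le_infDist_add_dist (s := E) (x := z) (y := z')
      rw [dist_comm, dist_eq_norm] at h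
      exact h
    have hz'E : z' ∉ E := by
      intro hmem
      have : infDist z' E = 0 := infDist_zero_of_mem hmem
      linarith
    set τ := ‖1 - z‖ with hτ
    have hdτ : d ≤ τ := by
      have h := infDist_le_dist_of_mem (x := z) h1E
      rw [dist_comm, dist_eq_norm] at h
      exact h
    have hτp : 0 < τ := by linarith
    have hτ2 : τ ≤ 2 := by
      calc τ ≤ ‖(1:ℂ)‖ + ‖z‖ := norm_sub_le _ _
        _ ≤ 2 := by rw [norm_one]; linarith
    have hτ' : ‖1 - z'‖ ≤ τ + δ := by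
      have : (1:ℂ) - z' = (1 - z) - (z' - z) := by ring
      rw [this]
      exact norm_sub_le _ _
    obtain ⟨a1, a2⟩ := hlow z hz hzE
    obtain ⟨b1, b2⟩ := hlow z' hz' hz'E
    set A := ‖(1 + G z)⁻¹‖ with hA
    set B := ‖(1 + G z')⁻¹‖ with hB
    have hA0 : 0 ≤ A := norm_nonneg _
    have hB0 : 0 ≤ B := norm_nonneg _
    have b1' : B ≤ C * (3 / 2 * d ^ α) := by
      refine b1.trans (mul_le_mul_of_nonneg_left ?_ hC.le)
      calc infDist z' E ^ α ≤ (3 / 2 * d) ^ α := Real.rpow_le_rpow hd'0 (by linarith) h0.le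
        _ = (3 / 2) ^ α * d ^ α := Real.mul_rpow (by norm_num) hd0
        _ ≤ 3 / 2 * d ^ α := by
            refine mul_le_mul_of_nonneg_right ?_ (Real.rpow_nonneg hd0 _)
            calc (3 / 2:ℝ) ^ α ≤ (3 / 2) ^ (1:ℝ) :=
                  Real.rpow_le_rpow_of_exponent_le (by norm_num) h1.le
              _ = 3 / 2 := Real.rpow_one _
    have b2' : B ≤ C * (3 / 2 * τ) := by
      refine b2.trans (mul_le_mul_of_nonneg_left ?_ hC.le)
      linarith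
    set m := min (d ^ α) τ with hm
    have hdα : 0 < d ^ α := Real.rpow_pos_of_pos hdp _
    have hm0 : 0 < m := lt_min hdα hτp
    have hm1 : m ≤ d ^ α := min_le_left _ _
    have hm2 : m ≤ τ := min_le_right _ _
    have hAm : A ≤ C * m := by
      rcases min_choice (d ^ α) τ with h | h
      · rw [hm, h]; exact a1
      · rw [hm, h]; exact a2
    have hBm : B ≤ 3 / 2 * (C * m) := by
      rcases min_choice (d ^ α) τ with h | h
      · rw [hm, h]; linarith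
      · rw [hm, h]; linarith
    have hdm1 : 0 < d ^ (α - 1) := Real.rpow_pos_of_pos hdp _
    have k1 : m ^ 2 * (1 / τ ^ 2) ≤ 2 * d ^ (α - 1) := by
      have s1 : m ^ 2 * (1 / τ ^ 2) ≤ 1 := by
        rw [mul_one_div, div_le_one (by positivity)]
        exact pow_le_pow_left₀ hm0.le hm2 2
      have s2 : (1:ℝ) ≤ 2 * d ^ (α - 1) := by
        have hd2 : d ≤ 2 := hdτ.trans hτ2
        have s3 : (2:ℝ) ^ (α - 1) ≤ d ^ (α - 1) :=
          Real.rpow_le_rpow_of_nonpos hdp hd2 (by linarith)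
        have s4 : (2:ℝ) ^ (-1:ℝ) ≤ 2 ^ (α - 1) :=
          Real.rpow_le_rpow_of_exponent_le (by norm_num) (by linarith)
        have s5 : (2:ℝ) ^ (-1:ℝ) = 1 / 2 := by
          rw [Real.rpow_neg_one]; norm_num
        rw [s5] at s4
        have s6 : (1:ℝ) / 2 ≤ d ^ (α - 1) := s4.trans s3
        linarith
      exact s1.trans s2
    have k2 : m ^ 2 * (1 / (d * τ)) ≤ d ^ (α - 1) := by
      have e : d ^ (α - 1) = d ^ α / d := by
        rw [Real.rpow_sub hdp, Real.rpow_one]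
      rw [mul_one_div, div_le_iff₀ (by positivity), e]
      have : d ^ α / d * (d * τ) = d ^ α * τ := by field_simp
      rw [this, sq]
      exact mul_le_mul hm1 hm2 hm0.le hdα.le
    have k3 : m ^ 2 * d ^ (-α - 1) ≤ d ^ (α - 1) := by
      have e : d ^ (α - 1) = (d ^ α) ^ 2 * d ^ (-α - 1) := by
        rw [← Real.rpow_natCast, ← Real.rpow_mul hdp.le, ← Real.rpow_add hdp]
        congr 1
        push_cast
        ring
      rw [e]
      refine mul_le_mul_of_nonneg_right ?_ (Real.rpow_pos_of_pos hdp _).le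
      exact pow_le_pow_left₀ hm0.le hm1 2
    have k4 : δ * d ^ (α - 1) ≤ δ ^ α := by
      have s1 : d ^ (α - 1) ≤ δ ^ (α - 1) :=
        Real.rpow_le_rpow_of_nonpos hδp (by linarith) (by linarith)
      have s2 : δ ^ α = δ * δ ^ (α - 1) := by
        rw [Real.rpow_sub hδp, Real.rpow_one]
        field_simp
      rw [s2]
      exact mul_le_mul_of_nonneg_left s1 hδ0
    have hD := hdiff z z' hz hz' hzE hz'E hcase
    have hne : 1 + G z ≠ 0 := hG0 z hz hzE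
    have hne' : 1 + G z' ≠ 0 := hG0 z' hz' hz'E
    have hid : Gam E G z' - Gam E G z = (1 + G z')⁻¹ * (1 + G z)⁻¹ * (G z - G z') := by
      simp only [Gam, hzE, hz'E, if_false]
      field_simp
      ring
    have hGn : ‖G z - G z'‖ = ‖G z' - G z‖ := norm_sub_rev _ _
    have hfin : ‖Gam E G z' - Gam E G z‖ = B * A * ‖G z' - G z‖ := by
      rw [hid, norm_mul, norm_mul, hGn]
    rw [hfin]
    have hBA : B * A ≤ 3 / 2 * (C * m) * (C * m) :=
      mul_le_mul hBm hAm hA0 (by positivity)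
    have hW : 0 ≤ 1 / τ ^ 2 + 1 / (d * τ) + d ^ (-α - 1) := by positivity
    calc B * A * ‖G z' - G z‖
        ≤ (3 / 2 * (C * m) * (C * m)) * (C' * δ * (1 / τ ^ 2 + 1 / (d * τ) + d ^ (-α - 1))) :=
          mul_le_mul hBA hD (norm_nonneg _) (by positivity)
      _ = 3 / 2 * C ^ 2 * C' * δ * (m ^ 2 * (1 / τ ^ 2) + m ^ 2 * (1 / (d * τ)) +
            m ^ 2 * d ^ (-α - 1)) := by ring
      _ ≤ 3 / 2 * C ^ 2 * C' * δ * (2 * d ^ (α - 1) + d ^ (α - 1) + d ^ (α - 1)) := by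
          refine mul_le_mul_of_nonneg_left ?_ (by positivity)
          exact add_le_add (add_le_add k1 k2) k3
      _ = 6 * C ^ 2 * C' * (δ * d ^ (α - 1)) := by ring
      _ ≤ 6 * C ^ 2 * C' * δ ^ α := mul_le_mul_of_nonneg_left k4 (by positivity)
      _ ≤ (5 * C + 6 * C ^ 2 * C') * δ ^ α := by
          have : 0 ≤ C * δ ^ α := mul_nonneg hC.le (Real.rpow_nonneg hδ0 _)
          nlinarith

end H428PK
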