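import Pool.Agent.H428R2.PK.Defs
import Pool.Agent.H428R2.PK.K2
import Pool.Agent.H428R2.PK.A1
import Pool.Agent.H428R2.PK.A2
namespace H428PK
open Complex Metric Set Filter Topology

/- A6: Γ is analytic in the disc -/

private lemma a6_slit (w : ℂ) (hw : 0 ≤ w.re) (hw0 : w ≠ 0) : w ∈ slitPlane := by
  rw [mem_slitPlane_iff]
  by_cases h : 0 < w.re
  · exact Or.inl h
  · right
    intro h2
    apply hw0
    apply Complex.ext
    · simp only [zero_re]; linarith
    · simp only [zero_im]; exact h2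

private lemma a6_not_mem_Eset {ι : Type} (ζ : ι → ℂ) (hE : Eset ζ ⊆ sphere 0 1) (z : ℂ)
    (hz : z ∈ ball (0:ℂ) 1) : z ∉ Eset ζ := by
  intro h
  have h1 := hE h
  rw [mem_sphere_zero_iff_norm] at h1
  rw [mem_ball_zero_iff] at hz
  linarith

private lemma a6_term {α : ℝ} (h0 : 0 < α) (h1 : α < 1) (ρ : ℝ) (hρ : 0 < ρ) (ζ : ℂ)
    (hζ : ‖ζ‖ = 1) (z : ℂ) (hz : ‖z‖ < 1) :
    DifferentiableAt ℂ (fun z => ker α ρ (1 - z * (starRingEnd ℂ) ζ)) z := by
  obtain ⟨hre, hn⟩ := wfacts z ζ hz.le hζ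
  have hne : (1 - z * (starRingEnd ℂ) ζ) ≠ 0 := by
    intro h
    rw [h, norm_zero] at hn
    have h2 : z = ζ := sub_eq_zero.mp (norm_eq_zero.mp hn.symm)
    rw [h2] at hz
    linarith
  have hden := (ker_den_ge α ρ h0 h1 hρ _ hre hne).2
  have hpos : 0 < ‖1 - z * (starRingEnd ℂ) ζ‖ / ρ := div_pos (norm_pos_iff.mpr hne) hρ
  have hne2 : (1 - z * (starRingEnd ℂ) ζ) ^ (α : ℂ) + (1 - z * (starRingEnd ℂ) ζ) / (ρ : ℂ) ≠ 0 := by
    intro h
    rw [h, norm_zero] at hden
    linarith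
  unfold ker
  have hd : DifferentiableAt ℂ (fun z : ℂ => 1 - z * (starRingEnd ℂ) ζ) z := by fun_prop
  refine DifferentiableAt.fun_inv ?_ hne2
  refine DifferentiableAt.fun_add ?_ ?_
  · exact hd.cpow_const (a6_slit _ hre hne)
  · exact hd.div_const _

private lemma a6_tsum {α : ℝ} (h0 : 0 < α) (h1 : α < 1) {ι : Type} {ρ : ι → ℝ} {ζ : ι → ℂ}
    {S c : ℝ} (H : Good α ρ ζ S c) (z : ℂ) (hz : z ∈ ball (0:ℂ) 1) :
    DifferentiableAt ℂ (fun z => ∑' n, ker α (ρ n) (1 - z * (starRingEnd ℂ) (ζ n))) z := by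
  rw [mem_ball_zero_iff] at hz
  obtain ⟨r, hzr, hr1⟩ := exists_between hz
  have hD : DifferentiableOn ℂ (fun z => ∑' n, ker α (ρ n) (1 - z * (starRingEnd ℂ) (ζ n)))
      (ball 0 r) := by
    refine differentiableOn_tsum_of_summable_norm (u := fun n => ρ n / (1 - r)) ?_ ?_ isOpen_ball ?_
    · exact H.ρsum.div_const _
    · intro n w hw
      rw [mem_ball_zero_iff] at hw
      exact (a6_term h0 h1 (ρ n) (H.ρpos n) (ζ n) (H.circ n) w (hw.trans hr1)).differentiableWithinAt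
    · intro n w hw
      rw [mem_ball_zero_iff] at hw
      obtain ⟨hre, hn⟩ := wfacts w (ζ n) (hw.trans hr1).le (H.circ n)
      have hge : 1 - r ≤ ‖w - ζ n‖ := by
        have h3 := norm_sub_norm_le (ζ n) w
        rw [H.circ n, norm_sub_rev] at h3
        linarith
      have hpos : 0 < 1 - r := by linarith
      have hne : (1 - w * (starRingEnd ℂ) (ζ n)) ≠ 0 := by
        intro h
        rw [h, norm_zero] at hn
        linarith
      refine (ker_norm_le α (ρ n) h0 h1 (H.ρpos n) _ hre hne).1.trans ?_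
      rw [hn]
      exact div_le_div_of_nonneg_left (H.ρpos n).le hpos hge
  exact hD.differentiableAt (isOpen_ball.mem_nhds (by rwa [mem_ball_zero_iff]))

theorem Gam_diff {α : ℝ} (h0 : 0 < α) (h1 : α < 1) {ι : Type} {ρ : ι → ℝ} {ζ : ι → ℂ}
    {S c : ℝ} (H : Good α ρ ζ S c) (M : ℝ) (hM : 0 < M) :
    DifferentiableOn ℂ (Gam (Eset ζ) (GG α M ρ ζ)) (ball 0 1) := by
  have hE := (Eset_closed H).2
  have hD : DifferentiableOn ℂ (fun z => (1 + GG α M ρ ζ z)⁻¹) (ball 0 1) := by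
    intro z hz
    have hzE := a6_not_mem_Eset ζ hE z hz
    have hz' : ‖z‖ < 1 := by rwa [mem_ball_zero_iff] at hz
    have hne : (1 : ℂ) + GG α M ρ ζ z ≠ 0 := by
      intro h
      have h2 := congrArg Complex.re h
      rw [add_re, one_re, zero_re] at h2
      have h3 := GG_re_pos h0 h1 H M hM z hz'.le hzE
      linarith
    have h1z : (1 : ℂ) - z ≠ 0 := by
      intro h
      have h2 : z = 1 := (sub_eq_zero.mp h).symm
      rw [h2, norm_one] at hz'
      exact lt_irrefl _ hz'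
    have hG : DifferentiableAt ℂ (GG α M ρ ζ) z := by
      unfold GG
      refine DifferentiableAt.fun_add ?_ (a6_tsum h0 h1 H z hz)
      refine DifferentiableAt.fun_div (by fun_prop) (by fun_prop) h1z
    exact (DifferentiableAt.fun_inv (hG.const_add 1) hne).differentiableWithinAt
  refine hD.congr ?_
  intro z hz
  unfold Gam
  rw [if_neg (a6_not_mem_Eset ζ hE z hz)]

end H428PK
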