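import Pool.Agent.H428R2.PK.Defs
import Pool.Agent.H428R2.PK.A1
import Pool.Agent.H428R2.PK.A2
import Pool.Agent.H428R2.PK.A3
import Pool.Agent.H428R2.PK.A4
import Pool.Agent.H428R2.PK.A5
import Pool.Agent.H428R2.PK.A6
namespace H428PK
open Complex Metric Set Filter Topology

/- A7: ASSEMBLY: Good → IsPeakSet α (Eset ζ) -/

theorem a7_norm_lt (G : ℂ) (h : 0 < G.re) : ‖1 - 2 * (1 + G)⁻¹‖ < 1 := by
  have hne : 1 + G ≠ 0 := by
    intro h0
    have := congrArg Complex.re h0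
    simp at this
    linarith
  have h1 : 1 - 2 * (1 + G)⁻¹ = (G - 1) / (1 + G) := by
    field_simp
    ring
  rw [h1, norm_div, div_lt_one (norm_pos_iff.2 hne)]
  have h2 : ‖G - 1‖ ^ 2 < ‖1 + G‖ ^ 2 := by
    rw [← Complex.normSq_eq_norm_sq, ← Complex.normSq_eq_norm_sq, Complex.normSq_apply,
      Complex.normSq_apply]
    simp
    nlinarith
  exact lt_of_pow_lt_pow_left₀ 2 (norm_nonneg _) h2

theorem good_peak {α : ℝ} (h0 : 0 < α) (h1 : α < 1) {ι : Type} {ρ : ι → ℝ} {ζ : ι → ℂ}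
    {S c : ℝ} (H : Good α ρ ζ S c) : IsPeakSet α (Eset ζ) := by
  obtain ⟨M, C, hM, hC, hlow⟩ := lower h0 h1 H
  obtain ⟨C', hC', hdiff⟩ := GG_sub h0 h1 H M hM
  obtain ⟨hcl, hsub⟩ := Eset_closed H
  have h1E : (1 : ℂ) ∈ Eset ζ := mem_insert _ _
  have hG0 : ∀ z : ℂ, ‖z‖ ≤ 1 → z ∉ Eset ζ → 1 + GG α M ρ ζ z ≠ 0 := by
    intro z hz hzE h
    have h2 := GG_re_pos h0 h1 H M hM z hz hzE
    have h3 := congrArg Complex.re h
    simp at h3
    linarith
  obtain ⟨K, hK, hhol⟩ := holder h0 h1 (Eset ζ) hcl hsub h1E (GG α M ρ ζ) hG0 C hC hlow C' hC' hdiff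
  have hcont : ContinuousOn (Gam (Eset ζ) (GG α M ρ ζ)) (closedBall 0 1) := by
    intro z hz
    have hz' : ‖z‖ ≤ 1 := by simpa using hz
    rw [ContinuousWithinAt, tendsto_iff_norm_sub_tendsto_zero]
    have h4 : Tendsto (fun z' : ℂ => K * ‖z' - z‖ ^ α) (𝓝[closedBall 0 1] z) (𝓝 0) := by
      have h5 : Tendsto (fun z' : ℂ => K * ‖z' - z‖ ^ α) (𝓝 z) (𝓝 (K * ‖z - z‖ ^ α)) := by
        apply Tendsto.const_mul
        have h6 : Tendsto (fun z' : ℂ => ‖z' - z‖) (𝓝 z) (𝓝 ‖z - z‖) :=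
          (continuous_norm.comp (continuous_id.sub continuous_const)).tendsto z
        exact h6.rpow_const (Or.inr h0.le)
      have h7 : K * ‖z - z‖ ^ α = 0 := by
        rw [sub_self, norm_zero, Real.zero_rpow h0.ne', mul_zero]
      rw [h7] at h5
      exact h5.mono_left nhdsWithin_le_nhds
    refine squeeze_zero' (Eventually.of_forall fun _ => norm_nonneg _) ?_ h4
    filter_upwards [self_mem_nhdsWithin] with z' hz'
    exact hhol z z' (by simpa using hz) (by simpa using hz')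
  refine ⟨hsub, hcl, fun z => 1 - 2 * Gam (Eset ζ) (GG α M ρ ζ) z, ⟨?_, ?_, ?_⟩, ?_, ?_⟩
  · exact continuousOn_const.sub (continuousOn_const.mul hcont)
  · exact (differentiableOn_const _).sub
      ((differentiableOn_const _).mul (Gam_diff h0 h1 H M hM))
  · refine ⟨2 * K, ?_⟩
    intro z hz w hw
    have e1 : 1 - 2 * Gam (Eset ζ) (GG α M ρ ζ) z - (1 - 2 * Gam (Eset ζ) (GG α M ρ ζ) w) =
        2 * (Gam (Eset ζ) (GG α M ρ ζ) w - Gam (Eset ζ) (GG α M ρ ζ) z) := by ring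
    simp only
    rw [e1, norm_mul, norm_sub_rev z w]
    have h8 := hhol z w (by rw [mem_sphere_zero_iff_norm] at hz; exact hz.le)
      (by rw [mem_sphere_zero_iff_norm] at hw; exact hw.le)
    have h9 : ‖(2 : ℂ)‖ = 2 := by simp
    rw [h9]
    linarith
  · intro z hz
    simp only [Gam, if_pos hz, mul_zero, sub_zero]
  · intro z hz hzE
    have hz' : ‖z‖ ≤ 1 := by rw [mem_sphere_zero_iff_norm] at hz; exact hz.le
    simp only [Gam, if_neg hzE]
    exact a7_norm_lt _ (GG_re_pos h0 h1 H M hM z hz' hzE)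

end H428PK
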