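import Pool.Agent.H428R2.PK.Defs

namespace H428PK
open Complex Metric Set Filter Topology

/- C1: numerics of N_k, ρ_k: positivity, summability, log bound, divergence

PROOF NOTES: aa k = 16^{-(k+1)}, β = 1/α-1 > 0, rr = aa^β, NN = ⌈aa^(-β)/(k+1)^(1/α)⌉₊ (Nat.ceil, Nat.ceil_lt_add_one, Nat.le_ceil). NN_pos: the argument is > 0. NN_le: NN ≤ x+1 with x ≤ aa^(-β), 1 ≤ aa^(-β). mass_summable: NN*rr ≤ ((k+1)^(-1/α)) + aa^β; both summable: Real.summable_one_div_nat_add_rpow or Real.summable_nat_rpow_inv shifted (1/α > 1), and aa^β = (16^(-β))^(k+1) geometric. log_bound: NN*rr ≤ (k+1)^(-1/α) + aa^β ≤ C1/(k+1) [(k+1)^(-1/α) ≤ (k+1)^(-1); (k+1) q^(k+1) bounded for q = 16^(-β) < 1]; 1+log NN ≤ 1 + log 2 + β(k+1) log 16 ≤ C2 (k+1). div_term: (aa/NN)^(-α) = aa^(-α) NN^α ≥ aa^(-α) (aa^(-β)/(k+1)^(1/α))^α = aa^(-α) aa^(-(1-α))/(k+1) since αβ = 1-α. Total aa * aa^(-1)/(k+1).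
-/

theorem aa_pos (k : ℕ) : 0 < aa k ∧ aa k ≤ 1/16 := by
  unfold aa
  refine ⟨by positivity, ?_⟩
  calc (1/16 : ℝ) ^ (k + 1) ≤ (1/16 : ℝ) ^ 1 :=
        pow_le_pow_of_le_one (by norm_num) (by norm_num) (by omega)
    _ = 1/16 := by norm_num

theorem NN_pos (α : ℝ) (k : ℕ) : 1 ≤ NN α k := by
  unfold NN
  apply Nat.one_le_ceil_iff.2
  have := (aa_pos k).1
  positivity

/-- the argument of the ceiling -/
private noncomputable def c1x (α : ℝ) (k : ℕ) : ℝ := (aa k) ^ (-(1/α - 1)) / ((k:ℝ)+1) ^ (1/α)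

private theorem c1x_pos (α : ℝ) (k : ℕ) : 0 < c1x α k := by
  unfold c1x
  have := (aa_pos k).1
  positivity

private theorem NN_le_x (α : ℝ) (k : ℕ) : (NN α k : ℝ) ≤ c1x α k + 1 := by
  unfold NN
  exact (Nat.ceil_lt_add_one (c1x_pos α k).le).le

private theorem x_le_NN (α : ℝ) (k : ℕ) : c1x α k ≤ (NN α k : ℝ) := Nat.le_ceil _

private theorem beta_pos {α : ℝ} (h0 : 0 < α) (h1 : α < 1) : 0 < 1/α - 1 := by
  have : 1 < 1/α := by
    rw [lt_div_iff₀ h0]
    linarith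
  linarith

private theorem kp_ge (α : ℝ) (h0 : 0 < α) (k : ℕ) : 1 ≤ ((k:ℝ)+1) ^ (1/α) :=
  Real.one_le_rpow (by have : (0:ℝ) ≤ k := Nat.cast_nonneg k
                       linarith) (by positivity)

private theorem aa_neg_ge (α : ℝ) (h0 : 0 < α) (h1 : α < 1) (k : ℕ) :
    1 ≤ aa k ^ (-(1/α - 1)) := by
  have h := aa_pos k
  exact Real.one_le_rpow_of_pos_of_le_one_of_nonpos h.1 (by linarith) (by
    have := beta_pos h0 h1
    linarith)

theorem NN_le (α : ℝ) (h0 : 0 < α) (h1 : α < 1) (k : ℕ) :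
    (NN α k : ℝ) ≤ 2 * aa k ^ (-(1/α - 1)) := by
  have h2 := NN_le_x α k
  have h3 := kp_ge α h0 k
  have h4 := aa_neg_ge α h0 h1 k
  have h5 : c1x α k ≤ aa k ^ (-(1/α - 1)) := by
    unfold c1x
    exact div_le_self (by linarith) h3
  linarith

/-- `16^{-β}` -/
private noncomputable def qq (α : ℝ) : ℝ := (1/16 : ℝ) ^ (1/α - 1)

private theorem qq_pos (α : ℝ) : 0 < qq α := by unfold qq; positivity

private theorem qq_lt (α : ℝ) (h0 : 0 < α) (h1 : α < 1) : qq α < 1 := by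
  unfold qq
  exact Real.rpow_lt_one (by norm_num) (by norm_num) (beta_pos h0 h1)

private theorem rr_eq (α : ℝ) (k : ℕ) : rr α k = qq α ^ (k + 1) := by
  unfold rr aa qq
  rw [← Real.rpow_natCast, ← Real.rpow_mul (by norm_num), mul_comm, Real.rpow_mul (by norm_num),
    Real.rpow_natCast]

private theorem rr_pos (α : ℝ) (k : ℕ) : 0 < rr α k := by
  rw [rr_eq]
  exact pow_pos (qq_pos α) _

private theorem x_mul_rr (α : ℝ) (k : ℕ) : c1x α k * rr α k = ((k:ℝ)+1) ^ (-(1/α)) := by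
  have h := (aa_pos k).1
  unfold c1x rr
  rw [Real.rpow_neg h.le, Real.rpow_neg (by positivity)]
  have h2 : aa k ^ (1/α - 1) ≠ 0 := by positivity
  field_simp

private theorem mass_le (α : ℝ) (k : ℕ) :
    (NN α k : ℝ) * rr α k ≤ ((k:ℝ)+1) ^ (-(1/α)) + qq α ^ (k + 1) := by
  have h1 := mul_le_mul_of_nonneg_right (NN_le_x α k) (rr_pos α k).le
  rw [add_mul, x_mul_rr, one_mul, rr_eq] at h1
  rwa [rr_eq]

theorem mass_summable (α : ℝ) (h0 : 0 < α) (h1 : α < 1) :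
    Summable (fun k => (NN α k : ℝ) * rr α k) := by
  have hb := beta_pos h0 h1
  have hs1 : Summable (fun k : ℕ => ((k:ℝ)+1) ^ (-(1/α))) := by
    have h2 : Summable (fun n : ℕ => ((n : ℝ)) ^ (-(1/α))) :=
      Real.summable_nat_rpow.2 (by linarith)
    have h3 := (summable_nat_add_iff 1).2 h2
    refine h3.congr fun k => ?_
    push_cast
    rfl
  have hs2 : Summable (fun k : ℕ => qq α ^ (k + 1)) :=
    (summable_nat_add_iff 1).2 (summable_geometric_of_lt_one (qq_pos α).le (qq_lt α h0 h1))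
  refine Summable.of_nonneg_of_le (fun k => ?_) (mass_le α) (hs1.add hs2)
  have := rr_pos α k
  positivity

theorem log_bound (α : ℝ) (h0 : 0 < α) (h1 : α < 1) :
    ∃ C : ℝ, 0 < C ∧ ∀ k, (NN α k : ℝ) * rr α k * (1 + Real.log (NN α k)) ≤ C := by
  have hb := beta_pos h0 h1
  -- `(k+1) q^(k+1)` is bounded
  have hbd : ∃ D : ℝ, 0 < D ∧ ∀ k : ℕ, ((k:ℝ)+1) * qq α ^ (k + 1) ≤ D := by
    have hlim := tendsto_self_mul_const_pow_of_lt_one (qq_pos α).le (qq_lt α h0 h1)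
    obtain ⟨D, hD⟩ := hlim.bddAbove_range
    refine ⟨max D 1, by positivity, fun k => ?_⟩
    have := hD ⟨k + 1, rfl⟩
    push_cast at this
    exact this.trans (le_max_left _ _)
  obtain ⟨D, hD0, hD⟩ := hbd
  have hl16 : 0 < Real.log 16 := Real.log_pos (by norm_num)
  have hl2 : 0 < Real.log 2 := Real.log_pos (by norm_num)
  set β := 1/α - 1 with hβ
  set C2 : ℝ := 1 + Real.log 2 + β * Real.log 16 with hC2
  have hC20 : 0 < C2 := by positivity
  refine ⟨(1 + D) * C2, by positivity, fun k => ?_⟩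
  have hk : (0:ℝ) ≤ k := Nat.cast_nonneg k
  have hk1 : (0:ℝ) < (k:ℝ) + 1 := by linarith
  have hN1 : (1:ℝ) ≤ NN α k := by exact_mod_cast NN_pos α k
  have haa := aa_pos k
  have hlog : Real.log (NN α k) ≤ Real.log 2 + β * (((k:ℝ)+1) * Real.log 16) := by
    have h2 := Real.log_le_log (by linarith) (NN_le α h0 h1 k)
    rw [Real.log_mul (by norm_num) (by
      have := aa_neg_ge α h0 h1 k
      linarith), Real.log_rpow haa.1] at h2
    have h3 : Real.log (aa k) = -(((k:ℝ)+1) * Real.log 16) := by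
      unfold aa
      rw [Real.log_pow, one_div, Real.log_inv]
      push_cast
      ring
    rw [h3] at h2
    linarith
  have hlog2 : 1 + Real.log (NN α k) ≤ C2 * ((k:ℝ)+1) := by
    rw [hC2]
    nlinarith [mul_nonneg hk hl2.le]
  have hlogn : 0 ≤ Real.log (NN α k) := Real.log_nonneg hN1
  have hmass : (NN α k : ℝ) * rr α k * ((k:ℝ)+1) ≤ 1 + D := by
    have h4 := mul_le_mul_of_nonneg_right (mass_le α k) hk1.le
    have h5 : ((k:ℝ)+1) ^ (-(1/α)) * ((k:ℝ)+1) ≤ 1 := by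
      have h6 : ((k:ℝ)+1) ^ (-(1/α)) * ((k:ℝ)+1) = ((k:ℝ)+1) ^ (-(1/α) + 1) := by
        rw [Real.rpow_add hk1, Real.rpow_one]
      rw [h6]
      exact Real.rpow_le_one_of_one_le_of_nonpos (by linarith) (by linarith)
    have h7 := hD k
    rw [add_mul] at h4
    linarith
  have hrr := rr_pos α k
  calc (NN α k : ℝ) * rr α k * (1 + Real.log (NN α k))
      ≤ (NN α k : ℝ) * rr α k * (C2 * ((k:ℝ)+1)) :=
        mul_le_mul_of_nonneg_left hlog2 (by positivity)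
    _ = ((NN α k : ℝ) * rr α k * ((k:ℝ)+1)) * C2 := by ring
    _ ≤ (1 + D) * C2 := mul_le_mul_of_nonneg_right hmass hC20.le

theorem div_term (α : ℝ) (h0 : 0 < α) (h1 : α < 1) (k : ℕ) :
    1 / ((k:ℝ) + 1) ≤ aa k * (aa k / (NN α k : ℝ)) ^ (-α) := by
  have haa := (aa_pos k).1
  have hk : (0:ℝ) ≤ k := Nat.cast_nonneg k
  have hk1 : (0:ℝ) < (k:ℝ) + 1 := by linarith
  have hN1 : (1:ℝ) ≤ NN α k := by exact_mod_cast NN_pos α k
  have hN0 : (0:ℝ) < NN α k := by linarith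
  have hx := x_le_NN α k
  have hx0 := c1x_pos α k
  have h2 : (aa k / (NN α k : ℝ)) ^ (-α) = (aa k) ^ (-α) * (NN α k : ℝ) ^ α := by
    rw [Real.div_rpow haa.le hN0.le, Real.rpow_neg hN0.le, div_inv_eq_mul]
  have h3 : (c1x α k) ^ α ≤ (NN α k : ℝ) ^ α := Real.rpow_le_rpow hx0.le hx h0.le
  have h4 : (c1x α k) ^ α = aa k ^ (-(1 - α)) / ((k:ℝ)+1) := by
    unfold c1x
    rw [Real.div_rpow (by positivity) (by positivity), ← Real.rpow_mul haa.le,
      ← Real.rpow_mul hk1.le]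
    have e1 : -(1/α - 1) * α = -(1 - α) := by field_simp
    have e2 : 1/α * α = 1 := by field_simp
    rw [e1, e2, Real.rpow_one]
  rw [h2]
  have h5 : aa k * (aa k ^ (-α) * (c1x α k) ^ α) = 1 / ((k:ℝ)+1) := by
    rw [h4]
    have e3 : aa k * (aa k ^ (-α) * (aa k ^ (-(1 - α)) / ((k:ℝ)+1))) =
        (aa k * aa k ^ (-α) * aa k ^ (-(1 - α))) / ((k:ℝ)+1) := by ring
    rw [e3]
    have e4 : aa k * aa k ^ (-α) * aa k ^ (-(1 - α)) = 1 := by
      nth_rewrite 1 [← Real.rpow_one (aa k)]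
      rw [← Real.rpow_add haa, ← Real.rpow_add haa]
      have : (1:ℝ) + -α + -(1 - α) = 0 := by ring
      rw [this, Real.rpow_zero]
    rw [e4]
  rw [← h5]
  gcongr

end H428PK
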