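import Pool.Agent.H428R2.PK.Defs

namespace H428PK
open Complex Metric Set Filter Topology

/- C2: geometry of the points pt and harmonic sum -/

private theorem C2_chord (θ φ : ℝ) :
    ‖Complex.exp ((θ : ℂ) * I) - Complex.exp ((φ : ℂ) * I)‖ = 2 * |Real.sin ((θ - φ) / 2)| := by
  have h1 : Complex.exp ((θ : ℂ) * I) - Complex.exp ((φ : ℂ) * I) =
      Complex.exp ((φ : ℂ) * I) * (Complex.exp (I * ((θ - φ : ℝ) : ℂ)) - 1) := by
    rw [mul_sub, ← Complex.exp_add, mul_one]
    congr 2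
    push_cast
    ring
  rw [h1, norm_mul, Complex.norm_exp_ofReal_mul_I, one_mul,
    Complex.norm_exp_I_mul_ofReal_sub_one, Real.norm_eq_abs, abs_mul, abs_of_pos (by norm_num : (0:ℝ) < 2)]

private theorem C2_lower (x : ℝ) (hx : |x| ≤ 1) : |x| / 2 ≤ 2 * |Real.sin (x / 2)| := by
  have h0 : |x / 2| ≤ Real.pi / 2 := by
    rw [abs_div, abs_of_pos (by norm_num : (0:ℝ) < 2)]
    have := Real.pi_gt_three
    linarith
  have h1 := Real.mul_abs_le_abs_sin h0
  have h2 : |x / 2| = |x| / 2 := by rw [abs_div, abs_of_pos (by norm_num : (0:ℝ) < 2)]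
  rw [h2] at h1
  have h3 : (1 : ℝ) / 2 ≤ 2 / Real.pi := by
    rw [div_le_div_iff₀ (by norm_num) Real.pi_pos]
    have := Real.pi_lt_four
    linarith
  have h4 : 1 / 2 * (|x| / 2) ≤ 2 / Real.pi * (|x| / 2) :=
    mul_le_mul_of_nonneg_right h3 (by positivity)
  linarith

private theorem C2_upper (x : ℝ) : 2 * |Real.sin (x / 2)| ≤ |x| := by
  have h1 := Real.abs_sin_le_abs (x := x / 2)
  rw [abs_div, abs_of_pos (by norm_num : (0:ℝ) < 2)] at h1
  linarith

theorem pt_norm (a : ℝ) (N j : ℕ) : ‖pt a N j‖ = 1 := by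
  unfold pt
  exact Complex.norm_exp_ofReal_mul_I _

theorem pt_sub_one (a : ℝ) (ha : 0 < a) (ha1 : a ≤ 1/16) (N j : ℕ) (hj : j < N) :
    a / 2 ≤ ‖pt a N j - 1‖ ∧ ‖pt a N j - 1‖ ≤ 2 * a := by
  have hN : (0 : ℝ) < N := by exact_mod_cast (by omega : 0 < N)
  have hjN : (j : ℝ) / N ≤ 1 := by
    rw [div_le_one hN]
    exact_mod_cast hj.le
  have hjN0 : 0 ≤ (j : ℝ) / N := by positivity
  have h1 : pt a N j - 1 =
      Complex.exp (((a * (1 + j / N) : ℝ) : ℂ) * I) - Complex.exp (((0 : ℝ) : ℂ) * I) := by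
    unfold pt
    simp
  rw [h1, C2_chord, sub_zero]
  have hθ0 : a ≤ a * (1 + j / N) := by nlinarith
  have hθ1 : a * (1 + j / N) ≤ 2 * a := by nlinarith
  have habs : |a * (1 + j / N)| = a * (1 + j / N) := abs_of_nonneg (by linarith)
  constructor
  · have := C2_lower (a * (1 + j / N)) (by rw [habs]; linarith)
    rw [habs] at this
    linarith
  · have := C2_upper (a * (1 + j / N))
    rw [habs] at this
    linarith

theorem pt_sub (a : ℝ) (ha : 0 < a) (ha1 : a ≤ 1/16) (N i j : ℕ) (hi : i < N) (hj : j < N) :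
    |(i:ℝ) - j| * (a / N) / 2 ≤ ‖pt a N i - pt a N j‖ := by
  have hN : (0 : ℝ) < N := by exact_mod_cast (by omega : 0 < N)
  unfold pt
  rw [C2_chord]
  have hx : a * (1 + (i : ℝ) / N) - a * (1 + (j : ℝ) / N) = ((i : ℝ) - j) * (a / N) := by
    field_simp
    ring
  rw [hx]
  have haN : 0 < a / N := by positivity
  have habs : |((i : ℝ) - j) * (a / N)| = |(i : ℝ) - j| * (a / N) := by
    rw [abs_mul, abs_of_pos haN]
  have hij : |(i : ℝ) - j| ≤ N := by
    have h1 : (i : ℝ) < N := by exact_mod_cast hi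
    have h2 : (j : ℝ) < N := by exact_mod_cast hj
    have h3 : (0 : ℝ) ≤ i := Nat.cast_nonneg i
    have h4 : (0 : ℝ) ≤ j := Nat.cast_nonneg j
    rw [abs_le]
    constructor <;> linarith
  have hle : |((i : ℝ) - j) * (a / N)| ≤ 1 := by
    rw [habs]
    calc |(i : ℝ) - j| * (a / N) ≤ N * (a / N) := mul_le_mul_of_nonneg_right hij haN.le
      _ = a := by field_simp
      _ ≤ 1 := by linarith
  have := C2_lower _ hle
  rw [habs] at this
  exact this

private theorem C2_harmonic (m N : ℕ) (hm : m ≤ N) :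
    ∑ k ∈ Finset.range m, 1 / ((k : ℝ) + 1) ≤ 1 + Real.log N := by
  have h1 : ∑ k ∈ Finset.range m, 1 / ((k : ℝ) + 1) ≤ ∑ k ∈ Finset.range N, 1 / ((k : ℝ) + 1) := by
    apply Finset.sum_le_sum_of_subset_of_nonneg
    · exact Finset.range_subset_range.2 hm
    · intro k _ _
      positivity
  have h2 : ∑ k ∈ Finset.range N, 1 / ((k : ℝ) + 1) = ((harmonic N : ℚ) : ℝ) := by
    unfold harmonic
    push_cast
    apply Finset.sum_congr rfl
    intro k _
    rw [one_div]
  rw [h2] at h1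
  exact h1.trans (harmonic_le_one_add_log N)

theorem harm (N j0 : ℕ) (hj0 : j0 < N) :
    ∑ j ∈ (Finset.range N).erase j0, 1 / |(j:ℝ) - j0| ≤ 2 * (1 + Real.log N) := by
  have hset : (Finset.range N).erase j0 = Finset.range j0 ∪ Finset.Ico (j0 + 1) N := by
    ext j
    simp only [Finset.mem_erase, Finset.mem_range, Finset.mem_union, Finset.mem_Ico]
    omega
  have hdisj : Disjoint (Finset.range j0) (Finset.Ico (j0 + 1) N) := by
    rw [Finset.disjoint_left]
    intro j h1 h2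
    have := Finset.mem_range.1 h1
    have := (Finset.mem_Ico.1 h2).1
    omega
  rw [hset, Finset.sum_union hdisj]
  have hA : ∑ j ∈ Finset.range j0, 1 / |(j:ℝ) - j0| ≤ 1 + Real.log N := by
    rw [← Finset.sum_range_reflect]
    refine le_trans (le_of_eq ?_) (C2_harmonic j0 N hj0.le)
    apply Finset.sum_congr rfl
    intro k hk
    have hk' := Finset.mem_range.1 hk
    have h1 : ((j0 - 1 - k : ℕ) : ℝ) = (j0 : ℝ) - 1 - k := by
      rw [Nat.cast_sub (by omega), Nat.cast_sub (by omega)]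
      simp
    rw [h1]
    have h2 : (j0 : ℝ) - 1 - k - j0 = -((k : ℝ) + 1) := by ring
    rw [h2, abs_neg, abs_of_pos (by positivity)]
  have hB : ∑ j ∈ Finset.Ico (j0 + 1) N, 1 / |(j:ℝ) - j0| ≤ 1 + Real.log N := by
    rw [Finset.sum_Ico_eq_sum_range]
    refine le_trans (le_of_eq ?_) (C2_harmonic (N - (j0 + 1)) N (by omega))
    apply Finset.sum_congr rfl
    intro k _
    have h2 : ((j0 + 1 + k : ℕ) : ℝ) - j0 = (k : ℝ) + 1 := by
      push_cast
      ring
    rw [h2, abs_of_pos (by positivity)]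
  linarith

/-- sum over a block without the nearest point -/
theorem block_sum (a : ℝ) (ha : 0 < a) (ha1 : a ≤ 1/16) (N : ℕ) (hN : 1 ≤ N) (z : ℂ) :
    ∃ j0, j0 < N ∧ (∀ j, j < N → j ≠ j0 → a / N / 4 ≤ ‖z - pt a N j‖) ∧
      ∑ j ∈ (Finset.range N).erase j0, 1 / ‖z - pt a N j‖ ≤ 8 * N / a * (1 + Real.log N) := by
  have hN' : (0 : ℝ) < N := by exact_mod_cast (by omega : 0 < N)
  obtain ⟨j0, hj0, hmin⟩ := Finset.exists_min_image (Finset.range N) (fun j => ‖z - pt a N j‖)
    ⟨0, Finset.mem_range.2 (by omega)⟩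
  rw [Finset.mem_range] at hj0
  have hkey : ∀ j, j < N → |(j : ℝ) - j0| * (a / N) / 4 ≤ ‖z - pt a N j‖ := by
    intro j hj
    have h1 := pt_sub a ha ha1 N j j0 hj hj0
    have h2 : ‖pt a N j - pt a N j0‖ ≤ ‖z - pt a N j‖ + ‖z - pt a N j0‖ := by
      have h3 : pt a N j - pt a N j0 = (z - pt a N j0) - (z - pt a N j) := by ring
      rw [h3, add_comm]
      exact norm_sub_le _ _
    have h4 := hmin j (Finset.mem_range.2 hj)
    linarith
  have hone : ∀ j, j ≠ j0 → 1 ≤ |(j : ℝ) - j0| := by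
    intro j hj
    have h1 : (j : ℤ) - j0 ≠ 0 := by omega
    have h2 : (1 : ℤ) ≤ |(j : ℤ) - j0| := Int.one_le_abs h1
    exact_mod_cast h2
  refine ⟨j0, hj0, ?_, ?_⟩
  · intro j hj hne
    refine le_trans ?_ (hkey j hj)
    have h1 := hone j hne
    have h2 : 0 < a / N := by positivity
    nlinarith
  · have hterm : ∀ j ∈ (Finset.range N).erase j0, 1 / ‖z - pt a N j‖ ≤
        4 * N / a * (1 / |(j : ℝ) - j0|) := by
      intro j hj
      rw [Finset.mem_erase, Finset.mem_range] at hj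
      have h1 := hone j hj.1
      have h0 : 0 < |(j : ℝ) - j0| := by linarith
      have h2 : 0 < |(j : ℝ) - j0| * (a / N) / 4 := by positivity
      calc 1 / ‖z - pt a N j‖ ≤ 1 / (|(j : ℝ) - j0| * (a / N) / 4) :=
            one_div_le_one_div_of_le h2 (hkey j hj.2)
        _ = 4 * N / a * (1 / |(j : ℝ) - j0|) := by
            field_simp
    refine (Finset.sum_le_sum hterm).trans ?_
    rw [← Finset.mul_sum]
    have h5 := harm N j0 hj0
    calc 4 * N / a * ∑ j ∈ (Finset.range N).erase j0, 1 / |(j : ℝ) - j0|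
        ≤ 4 * N / a * (2 * (1 + Real.log N)) := mul_le_mul_of_nonneg_left h5 (by positivity)
      _ = 8 * N / a * (1 + Real.log N) := by ring

end H428PK
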