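import Pool.Agent.H428R2.PK.Defs
import Pool.Agent.H428R2.PK.C1
import Pool.Agent.H428R2.PK.C2
namespace H428PK
open Complex Metric Set Filter Topology

/- C3: CONCRETE FAMILY IS GOOD -/

theorem c3_zz_norm (α : ℝ) (n : Idx α) : ‖zz α n‖ = 1 := pt_norm _ _ _

theorem c3_zz_one (α : ℝ) (n : Idx α) :
    aa n.1 / 2 ≤ ‖zz α n - 1‖ ∧ ‖zz α n - 1‖ ≤ 2 * aa n.1 :=
  pt_sub_one (aa n.1) (aa_pos n.1).1 (aa_pos n.1).2 (NN α n.1) n.2 n.2.2

theorem c3_rr_pos (α : ℝ) (k : ℕ) : 0 < rr α k := Real.rpow_pos_of_pos (aa_pos k).1 _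

theorem c3_summable (α : ℝ) (h0 : 0 < α) (h1 : α < 1) : Summable (rho α) := by
  refine (summable_sigma_of_nonneg (f := rho α) (fun n => (c3_rr_pos α n.1).le)).mpr
    ⟨fun k => Summable.of_finite, ?_⟩
  have h2 := mass_summable α h0 h1
  refine h2.congr fun k => ?_
  rw [tsum_fintype]
  simp [rho]

theorem c3_aa_succ {k m : ℕ} (h : k < m) : aa m ≤ aa k / 16 := by
  unfold aa
  have h1 : (1 / 16 : ℝ) ^ (m + 1) ≤ (1 / 16 : ℝ) ^ (k + 1 + 1) :=
    pow_le_pow_of_le_one (by norm_num) (by norm_num) (by omega)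
  rw [pow_succ _ (k + 1)] at h1
  linarith

theorem c3_lim (α : ℝ) (ε : ℝ) (hε : 0 < ε) : {n : Idx α | ε ≤ ‖zz α n - 1‖}.Finite := by
  obtain ⟨K, hK⟩ : ∃ K : ℕ, (1 / 16 : ℝ) ^ K < ε / 2 :=
    exists_pow_lt_of_lt_one (by positivity) (by norm_num)
  have hfin : ((↑((Finset.range K).sigma (fun k => (Finset.univ : Finset (Fin (NN α k))))) :
      Set (Idx α))).Finite := Finset.finite_toSet _
  refine hfin.subset ?_
  intro n hn
  have h1 : ε ≤ ‖zz α n - 1‖ := hn
  rw [Finset.mem_coe, Finset.mem_sigma]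
  refine ⟨?_, Finset.mem_univ _⟩
  rw [Finset.mem_range]
  by_contra h2
  have h3 := (c3_zz_one α n).2
  have h4 : aa n.1 ≤ (1 / 16 : ℝ) ^ K := by
    unfold aa
    exact pow_le_pow_of_le_one (by norm_num) (by norm_num) (by omega)
  linarith

/-- Points in blocks that are not near. -/
theorem c3_far (α : ℝ) (z : ℂ) (n : Idx α)
    (hn : ¬ (‖1 - z‖ / 4 < aa n.1 ∧ aa n.1 < 4 * ‖1 - z‖)) :
    ‖1 - z‖ / 2 ≤ ‖z - zz α n‖ := by
  have h1 := c3_zz_one α n
  have h0 : 0 ≤ ‖1 - z‖ := norm_nonneg _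
  by_cases h2 : ‖1 - z‖ / 4 < aa n.1
  · have h3 : 4 * ‖1 - z‖ ≤ aa n.1 := by
      by_contra h4
      exact hn ⟨h2, not_le.mp h4⟩
    have h4 : ‖zz α n - 1‖ ≤ ‖z - zz α n‖ + ‖1 - z‖ := by
      have : zz α n - 1 = -(z - zz α n) + -(1 - z) := by ring
      rw [this]
      refine le_trans (norm_add_le _ _) ?_
      rw [norm_neg, norm_neg]
    linarith [h1.1]
  · have h3 : aa n.1 ≤ ‖1 - z‖ / 4 := not_lt.mp h2
    have h4 : ‖1 - z‖ ≤ ‖z - zz α n‖ + ‖zz α n - 1‖ := by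
      have : 1 - z = -(z - zz α n) + -(zz α n - 1) := by ring
      rw [this]
      refine le_trans (norm_add_le _ _) ?_
      rw [norm_neg, norm_neg]
    linarith [h1.2]

/-- Sum over far points. -/
theorem c3_sum_far (α : ℝ) (h0 : 0 < α) (h1 : α < 1) (z : ℂ) (hz : 0 < ‖1 - z‖)
    (s : Finset (Idx α)) (hs : ∀ n ∈ s, ‖1 - z‖ / 2 ≤ ‖z - zz α n‖) :
    ∑ n ∈ s, rho α n / ‖z - zz α n‖ ≤ 2 * (∑' n, rho α n) / ‖1 - z‖ := by
  have h2 : ∀ n ∈ s, rho α n / ‖z - zz α n‖ ≤ rho α n * (2 / ‖1 - z‖) := by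
    intro n hn
    have h3 := hs n hn
    rw [div_eq_mul_inv]
    apply mul_le_mul_of_nonneg_left _ (c3_rr_pos α n.1).le
    rw [show (2 : ℝ) / ‖1 - z‖ = (‖1 - z‖ / 2)⁻¹ by rw [inv_div]]
    exact inv_anti₀ (by positivity) h3
  refine le_trans (Finset.sum_le_sum h2) ?_
  rw [← Finset.sum_mul]
  have h4 : ∑ n ∈ s, rho α n ≤ ∑' n, rho α n :=
    (c3_summable α h0 h1).sum_le_tsum s (fun n _ => (c3_rr_pos α n.1).le)
  calc (∑ n ∈ s, rho α n) * (2 / ‖1 - z‖) ≤ (∑' n, rho α n) * (2 / ‖1 - z‖) :=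
        mul_le_mul_of_nonneg_right h4 (by positivity)
    _ = _ := by ring

/-- Sum over the near block. -/
theorem c3_sum_near (α : ℝ) (C : ℝ)
    (hC : ∀ k, (NN α k : ℝ) * rr α k * (1 + Real.log (NN α k)) ≤ C) (hC0 : 0 < C)
    (z : ℂ) (hz : 0 < ‖1 - z‖) (k : ℕ) (hk : ‖1 - z‖ / 4 < aa k) (j0 : ℕ)
    (hsum : ∑ j ∈ (Finset.range (NN α k)).erase j0, 1 / ‖z - pt (aa k) (NN α k) j‖ ≤
      8 * (NN α k) / (aa k) * (1 + Real.log (NN α k)))
    (s : Finset (Idx α)) (hs : ∀ n ∈ s, n.1 = k ∧ (n.2 : ℕ) ≠ j0) :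
    ∑ n ∈ s, rho α n / ‖z - zz α n‖ ≤ 32 * C / ‖1 - z‖ := by
  classical
  have ha := (aa_pos k).1
  let f : ℕ → ℝ := fun j => 1 / ‖z - pt (aa k) (NN α k) j‖
  let e : Idx α → ℕ := fun n => (n.2 : ℕ)
  have hf0 : ∀ j, 0 ≤ f j := fun j => by positivity
  have h1 : ∀ n ∈ s, rho α n / ‖z - zz α n‖ = rr α k * f (e n) := by
    intro n hn
    obtain ⟨m, j⟩ := n
    obtain ⟨h2, _⟩ := hs _ hn
    simp only at h2
    subst h2
    simp only [rho, zz, f, e]
    ring
  have hinj : Set.InjOn e (s : Set (Idx α)) := by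
    intro n hn m hm hnm
    obtain ⟨a, i⟩ := n
    obtain ⟨b, j⟩ := m
    have h2 := (hs _ hn).1
    have h3 := (hs _ hm).1
    simp only at h2 h3
    subst h2
    subst h3
    simp only [e] at hnm
    have : i = j := Fin.ext hnm
    rw [this]
  have himg : s.image e ⊆ (Finset.range (NN α k)).erase j0 := by
    intro j hj
    rw [Finset.mem_image] at hj
    obtain ⟨n, hn, rfl⟩ := hj
    obtain ⟨m, i⟩ := n
    obtain ⟨h2, h3⟩ := hs _ hn
    simp only at h2
    subst h2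
    rw [Finset.mem_erase, Finset.mem_range]
    exact ⟨h3, i.2⟩
  rw [Finset.sum_congr rfl h1, ← Finset.mul_sum]
  have h4 : ∑ n ∈ s, f (e n) = ∑ j ∈ s.image e, f j := (Finset.sum_image hinj).symm
  have h5 : ∑ j ∈ s.image e, f j ≤ ∑ j ∈ (Finset.range (NN α k)).erase j0, f j :=
    Finset.sum_le_sum_of_subset_of_nonneg himg (fun j _ _ => hf0 j)
  rw [h4]
  calc rr α k * ∑ j ∈ s.image e, f j
      ≤ rr α k * (8 * (NN α k) / (aa k) * (1 + Real.log (NN α k))) :=
        mul_le_mul_of_nonneg_left (le_trans h5 hsum) (c3_rr_pos α k).le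
    _ = 8 / aa k * ((NN α k : ℝ) * rr α k * (1 + Real.log (NN α k))) := by ring
    _ ≤ 8 / aa k * C := mul_le_mul_of_nonneg_left (hC k) (by positivity)
    _ ≤ 32 * C / ‖1 - z‖ := by
        rw [div_mul_eq_mul_div, div_le_div_iff₀ ha hz]
        nlinarith

theorem concrete_good (α : ℝ) (h0 : 0 < α) (h1 : α < 1) :
    ∃ S c : ℝ, Good α (rho α) (zz α) S c := by
  classical
  obtain ⟨C, hC0, hC⟩ := log_bound α h0 h1
  have hβ : 0 < 1 / α - 1 := by
    have : 1 < 1 / α := by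
      rw [lt_div_iff₀ h0]
      linarith
    linarith
  have hα : 0 < 1 / α := by positivity
  set β : ℝ := 1 / α - 1 with hβdef
  have hT : 0 ≤ ∑' n, rho α n := tsum_nonneg (fun n => (c3_rr_pos α n.1).le)
  have h4pos : 0 < (1 / 4 : ℝ) ^ (1 / α) := Real.rpow_pos_of_pos (by norm_num) _
  have h2pos : 0 < (2 : ℝ) ^ β := Real.rpow_pos_of_pos (by norm_num) _
  set c : ℝ := min ((1 / 4 : ℝ) ^ (1 / α) / 8) (1 / (2 * 2 ^ β)) with hc
  have hc0 : 0 < c := lt_min (by positivity) (by positivity)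
  have hc1 : c ≤ (1 / 4 : ℝ) ^ (1 / α) / 8 := min_le_left _ _
  have hc2 : c ≤ 1 / (2 * 2 ^ β) := min_le_right _ _
  refine ⟨2 * (∑' n, rho α n) + 32 * C + 1, c, ?_⟩
  refine ⟨by positivity, hc0, fun n => c3_rr_pos α n.1, c3_summable α h0 h1, c3_zz_norm α,
    ?_, c3_lim α, ?_⟩
  · intro n hn
    have h2 := (c3_zz_one α n).1
    have h3 := (aa_pos n.1).1
    rw [hn, sub_self, norm_zero] at h2
    linarith
  intro z hz hz1
  have hτ : 0 < ‖1 - z‖ := by
    rw [norm_pos_iff, sub_ne_zero]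
    exact fun h => hz1 h.symm
  have hτ2 : ‖1 - z‖ ≤ 2 := by
    refine le_trans (norm_sub_le _ _) ?_
    rw [norm_one]
    linarith
  -- far points satisfy the third clause
  have hthird : ∀ D : ℝ, ‖1 - z‖ / 2 ≤ D → c * ‖1 - z‖ ^ (1 / α) ≤ D := by
    intro D hD
    refine le_trans ?_ hD
    have h2 : ‖1 - z‖ ^ (1 / α) = ‖1 - z‖ * ‖1 - z‖ ^ β := by
      rw [show (1 : ℝ) / α = 1 + β by rw [hβdef]; ring, Real.rpow_add hτ, Real.rpow_one]
    have h3 : ‖1 - z‖ ^ β ≤ 2 ^ β := Real.rpow_le_rpow hτ.le hτ2 hβ.le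
    rw [h2]
    calc c * (‖1 - z‖ * ‖1 - z‖ ^ β) ≤ 1 / (2 * 2 ^ β) * (‖1 - z‖ * 2 ^ β) := by
          apply mul_le_mul hc2 _ (by positivity) (by positivity)
          exact mul_le_mul_of_nonneg_left h3 hτ.le
      _ = ‖1 - z‖ / 2 := by
          field_simp
  by_cases hnear : ∃ k, ‖1 - z‖ / 4 < aa k ∧ aa k < 4 * ‖1 - z‖
  · obtain ⟨k, hk1, hk2⟩ := hnear
    have ha := aa_pos k
    obtain ⟨j0, hj0, hdist, hsum⟩ := block_sum (aa k) ha.1 ha.2 (NN α k) (NN_pos α k) z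
    have huniq : ∀ n : Idx α, n.1 ≠ k → ‖1 - z‖ / 2 ≤ ‖z - zz α n‖ := by
      intro n hn
      apply c3_far
      rintro ⟨h2, h3⟩
      rcases lt_or_gt_of_ne hn with h4 | h4
      · have := c3_aa_succ h4
        linarith
      · have := c3_aa_succ h4
        linarith
    refine ⟨{(⟨k, ⟨j0, hj0⟩⟩ : Idx α)}, Set.subsingleton_singleton, ?_, ?_, ?_⟩
    · intro s hs
      have hne : ∀ n ∈ s, n.1 = k → (n.2 : ℕ) ≠ j0 := by
        intro n hn hnk hnj
        apply hs n hn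
        obtain ⟨m, i⟩ := n
        simp only at hnk hnj
        subst hnk
        rw [Set.mem_singleton_iff]
        congr 1
        exact Fin.ext hnj
      rw [← Finset.sum_filter_add_sum_filter_not s (fun n => n.1 = k)]
      have h2 := c3_sum_near α C hC hC0 z hτ k hk1 j0 hsum (s.filter (fun n => n.1 = k)) (by
        intro n hn
        rw [Finset.mem_filter] at hn
        exact ⟨hn.2, hne n hn.1 hn.2⟩)
      have h3 := c3_sum_far α h0 h1 z hτ (s.filter (fun n => ¬ n.1 = k)) (by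
        intro n hn
        rw [Finset.mem_filter] at hn
        exact huniq n hn.2)
      refine le_trans (add_le_add h2 h3) ?_
      rw [← add_div]
      apply div_le_div_of_nonneg_right _ hτ.le
      linarith
    · intro n hn
      by_cases hnk : n.1 = k
      · have hnj : (n.2 : ℕ) ≠ j0 := by
          intro hnj
          apply hn
          obtain ⟨m, i⟩ := n
          simp only at hnk hnj
          subst hnk
          rw [Set.mem_singleton_iff]
          congr 1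
          exact Fin.ext hnj
        have h2 : aa k / (NN α k) / 4 ≤ ‖z - zz α n‖ := by
          obtain ⟨m, i⟩ := n
          simp only at hnk hnj
          subst hnk
          exact hdist i i.2 hnj
        refine le_trans ?_ h2
        have hN : (0 : ℝ) < NN α k := by
          have := NN_pos α k
          exact_mod_cast this
        have h3 := NN_le α h0 h1 k
        rw [← hβdef] at h3
        have h4 : aa k ^ (1 / α) / 2 ≤ aa k / (NN α k) := by
          rw [div_le_div_iff₀ (by norm_num) hN]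
          have h5 : aa k ^ (1 / α) * aa k ^ (-β) = aa k := by
            rw [← Real.rpow_add ha.1]
            have : 1 / α + -β = 1 := by rw [hβdef]; ring
            rw [this, Real.rpow_one]
          have h6 : 0 < aa k ^ (1 / α) := Real.rpow_pos_of_pos ha.1 _
          calc aa k ^ (1 / α) * (NN α k) ≤ aa k ^ (1 / α) * (2 * aa k ^ (-β)) :=
                mul_le_mul_of_nonneg_left h3 h6.le
            _ = 2 * (aa k ^ (1 / α) * aa k ^ (-β)) := by ring
            _ = aa k * 2 := by rw [h5]; ring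
        have h7 : (‖1 - z‖ / 4) ^ (1 / α) ≤ aa k ^ (1 / α) :=
          Real.rpow_le_rpow (by positivity) hk1.le hα.le
        have h8 : (‖1 - z‖ / 4) ^ (1 / α) = ‖1 - z‖ ^ (1 / α) * (1 / 4 : ℝ) ^ (1 / α) := by
          rw [← Real.mul_rpow hτ.le (by norm_num)]
          congr 1
          ring
        have h9 : 0 < ‖1 - z‖ ^ (1 / α) := Real.rpow_pos_of_pos hτ _
        calc c * ‖1 - z‖ ^ (1 / α) ≤ (1 / 4 : ℝ) ^ (1 / α) / 8 * ‖1 - z‖ ^ (1 / α) :=
              mul_le_mul_of_nonneg_right hc1 h9.le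
          _ = (‖1 - z‖ / 4) ^ (1 / α) / 8 := by rw [h8]; ring
          _ ≤ aa k ^ (1 / α) / 8 := by linarith
          _ ≤ aa k / (NN α k) / 4 := by linarith
      · exact hthird _ (huniq n hnk)
    · intro n hn
      rw [Set.mem_singleton_iff] at hn
      subst hn
      show c * ‖1 - z‖ ^ β ≤ aa k ^ β
      have h7 : (‖1 - z‖ / 4) ^ β ≤ aa k ^ β :=
        Real.rpow_le_rpow (by positivity) hk1.le hβ.le
      have h8 : (‖1 - z‖ / 4) ^ β = ‖1 - z‖ ^ β * (1 / 4 : ℝ) ^ β := by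
        rw [← Real.mul_rpow hτ.le (by norm_num)]
        congr 1
        ring
      have h9 : 0 < ‖1 - z‖ ^ β := Real.rpow_pos_of_pos hτ _
      have h10 : (1 / 4 : ℝ) ^ (1 / α) ≤ (1 / 4 : ℝ) ^ β := by
        apply Real.rpow_le_rpow_of_exponent_ge (by norm_num) (by norm_num)
        rw [hβdef]
        linarith
      calc c * ‖1 - z‖ ^ β ≤ (1 / 4 : ℝ) ^ β * ‖1 - z‖ ^ β :=
            mul_le_mul_of_nonneg_right (by linarith) h9.le
        _ = (‖1 - z‖ / 4) ^ β := by rw [h8]; ring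
        _ ≤ aa k ^ β := h7
  · have hfar : ∀ n : Idx α, ‖1 - z‖ / 2 ≤ ‖z - zz α n‖ :=
      fun n => c3_far α z n (fun h => hnear ⟨n.1, h⟩)
    refine ⟨∅, Set.subsingleton_empty, ?_, ?_, ?_⟩
    · intro s _
      refine le_trans (c3_sum_far α h0 h1 z hτ s (fun n _ => hfar n)) ?_
      apply div_le_div_of_nonneg_right _ hτ.le
      linarith
    · intro n _
      exact hthird _ (hfar n)
    · intro n hn
      exact absurd hn (Set.notMem_empty n)

end H428PK
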