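import Mathlib

/-! # Peak sets for analytic Lipschitz classes (MP_129fce_an): definitions -/

namespace H428PK
open Complex Metric Set Filter Topology

/-- The class `A_α` of analytic functions of Lipschitz class `α`. -/
def IsA (α : ℝ) (f : ℂ → ℂ) : Prop :=
  ContinuousOn f (closedBall 0 1) ∧ DifferentiableOn ℂ f (ball 0 1) ∧
  ∃ C : ℝ, ∀ z ∈ sphere (0:ℂ) 1, ∀ w ∈ sphere (0:ℂ) 1, ‖f z - f w‖ ≤ C * ‖z - w‖ ^ α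

/-- `E` is a (closed) peak set for `A_α`. -/
def IsPeakSet (α : ℝ) (E : Set ℂ) : Prop :=
  E ⊆ sphere 0 1 ∧ IsClosed E ∧ ∃ f : ℂ → ℂ, IsA α f ∧ (∀ z ∈ E, f z = 1) ∧
    ∀ z ∈ sphere (0:ℂ) 1, z ∉ E → ‖f z‖ < 1

/-- The Gevrey class `G_α`. -/
def IsG (α : ℝ) (f : ℂ → ℂ) : Prop :=
  DifferentiableOn ℂ f (ball 0 1) ∧ ∃ C : ℝ, ∀ n : ℕ, ∀ z ∈ ball (0:ℂ) 1,
    ‖iteratedDeriv n f z‖ ≤ C ^ (n+1) * (n.factorial : ℝ) ^ (1 + 1/α)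

/-- `E` is a zero set for `G_α`: some `f ∈ G_α`, not identically zero on the disc, has all its
derivatives (extended continuously to the closed disc) equal to `0` on `E`. -/
def IsZeroSet (α : ℝ) (E : Set ℂ) : Prop :=
  ∃ f : ℂ → ℂ, IsG α f ∧ (∃ z ∈ ball (0:ℂ) 1, f z ≠ 0) ∧
    ∀ n : ℕ, ∀ ζ ∈ E, Tendsto (iteratedDeriv n f) (𝓝[ball 0 1] ζ) (𝓝 0)

/-- the kernel `1 / (w^α + w/ρ)` -/
noncomputable def ker (α ρ : ℝ) (w : ℂ) : ℂ := (w ^ (α : ℂ) + w / (ρ : ℂ))⁻¹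

/-- master hypothesis on a weighted countable family of points of the circle -/
structure Good (α : ℝ) {ι : Type} (ρ : ι → ℝ) (ζ : ι → ℂ) (S c : ℝ) : Prop where
  S0 : 0 < S
  c0 : 0 < c
  ρpos : ∀ n, 0 < ρ n
  ρsum : Summable ρ
  circ : ∀ n, ‖ζ n‖ = 1
  ne1 : ∀ n, ζ n ≠ 1
  lim : ∀ ε : ℝ, 0 < ε → {n : ι | ε ≤ ‖ζ n - 1‖}.Finite
  master : ∀ z : ℂ, ‖z‖ ≤ 1 → z ≠ 1 → ∃ F : Set ι, F.Subsingleton ∧
    (∀ s : Finset ι, (∀ n ∈ s, n ∉ F) → ∑ n ∈ s, ρ n / ‖z - ζ n‖ ≤ S / ‖1 - z‖) ∧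
    (∀ n, n ∉ F → c * ‖1 - z‖ ^ (1/α) ≤ ‖z - ζ n‖) ∧
    (∀ n ∈ F, c * ‖1 - z‖ ^ (1/α - 1) ≤ ρ n)

/-- the set `{1} ∪ {ζ_n}` -/
def Eset {ι : Type} (ζ : ι → ℂ) : Set ℂ := insert 1 (range ζ)

/-- the function `G = M/(1-z) + Σ 1/(w_n^α + w_n/ρ_n)`, `w_n = 1 - z conj ζ_n` -/
noncomputable def GG (α M : ℝ) {ι : Type} (ρ : ι → ℝ) (ζ : ι → ℂ) (z : ℂ) : ℂ :=
  (M : ℂ) / (1 - z) + ∑' n, ker α (ρ n) (1 - z * (starRingEnd ℂ) (ζ n))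

open Classical in
/-- `Γ = 1/(1+G)` off `E` and `0` on `E` -/
noncomputable def Gam (E : Set ℂ) (G : ℂ → ℂ) (z : ℂ) : ℂ := if z ∈ E then 0 else (1 + G z)⁻¹

/-- scale `a_k = 16^{-(k+1)}` -/
noncomputable def aa (k : ℕ) : ℝ := (1/16 : ℝ)^(k+1)

/-- number of points in the block `k` -/
noncomputable def NN (α : ℝ) (k : ℕ) : ℕ := ⌈(aa k) ^ (-(1/α - 1)) / ((k:ℝ)+1) ^ (1/α)⌉₊

/-- weight of the points of the block `k` -/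
noncomputable def rr (α : ℝ) (k : ℕ) : ℝ := (aa k) ^ (1/α - 1)

/-- the point `exp (i a (1 + j/N))` -/
noncomputable def pt (a : ℝ) (N : ℕ) (j : ℕ) : ℂ := Complex.exp (((a * (1 + j / N) : ℝ) : ℂ) * I)

/-- index set of the family -/
abbrev Idx (α : ℝ) : Type := Σ k : ℕ, Fin (NN α k)

/-- the weights as a family -/
noncomputable def rho (α : ℝ) (n : Idx α) : ℝ := rr α n.1

/-- the points as a family -/
noncomputable def zz (α : ℝ) (n : Idx α) : ℂ := pt (aa n.1) (NN α n.1) n.2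

end H428PK
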