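import Pool.Agent.H428R2.PK.Defs

namespace H428PK
open Complex Metric Set Filter Topology

/- Z1: TAYLOR: |f(z)| ≤ C^{n+1} (n!)^{1/α} |z-ζ|^n at a flat boundary point

PROOF NOTES: Downward/upward induction: claim P(k) for k ≤ n: ∀ z ∈ ball, ‖iteratedDeriv (n-k) f z‖ ≤ B‖z-ζ‖^k/k!. (Or: generalise f: prove by induction on n for all f; then apply the induction hypothesis to f' = deriv f: iteratedDeriv_succ' : iteratedDeriv (n+1) f = iteratedDeriv n (deriv f), so ‖deriv f z‖ ≤ B‖z-ζ‖^n/n! on the ball, and conclude for f.) Step: fix z in the ball, φ(t) = f(ζ + t(z-ζ)), t ∈ (0,1] (the points ζ+t(z-ζ) = (1-t)ζ + t z lie in the ball), ‖φ'(t)‖ = ‖z-ζ‖‖f'(..)‖ ≤ B‖z-ζ‖^(n+1) t^n/n!. For 0<ε<1: image_norm_le_of_norm_deriv_right_le_deriv_boundary on [ε,1] with boundary function t ↦ ‖φ ε‖ + B‖z-ζ‖^(n+1) t^(n+1)/(n+1)! gives ‖f z‖ ≤ ‖φ ε‖ + B‖z-ζ‖^(n+1)/(n+1)!; ε → 0: φ ε → 0 by h0 0 (iteratedDeriv_zero;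 ζ+ε(z-ζ) → ζ within the ball).
-/

/-- one integration step -/
theorem taylor_step (f : ℂ → ℂ) (hd : DifferentiableOn ℂ f (ball 0 1)) (ζ : ℂ) (hζ : ‖ζ‖ = 1)
    (h0 : Tendsto f (𝓝[ball 0 1] ζ) (𝓝 0)) (n : ℕ) (B : ℝ) (hB0 : 0 ≤ B)
    (hB : ∀ z ∈ ball (0:ℂ) 1, ‖deriv f z‖ ≤ B * ‖z - ζ‖ ^ n / n.factorial) :
    ∀ z ∈ ball (0:ℂ) 1, ‖f z‖ ≤ B * ‖z - ζ‖ ^ (n + 1) / (n + 1).factorial := by
  intro z hz
  have hz1 : ‖z‖ < 1 := by simpa using hz
  -- the points of the segment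
  have hseg : ∀ t : ℝ, 0 < t → t ≤ 1 → ζ + (t : ℂ) * (z - ζ) ∈ ball (0:ℂ) 1 := by
    intro t ht0 ht1
    rw [mem_ball_zero_iff]
    have h1 : ζ + (t : ℂ) * (z - ζ) = ((1 - t : ℝ) : ℂ) * ζ + (t : ℂ) * z := by
      push_cast; ring
    rw [h1]
    calc ‖((1 - t : ℝ) : ℂ) * ζ + (t : ℂ) * z‖ ≤ ‖((1 - t : ℝ) : ℂ) * ζ‖ + ‖(t : ℂ) * z‖ :=
          norm_add_le _ _
      _ = (1 - t) + t * ‖z‖ := by
          rw [norm_mul, norm_mul, Complex.norm_real, Complex.norm_real, hζ,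
            Real.norm_of_nonneg (by linarith), Real.norm_of_nonneg ht0.le, mul_one]
      _ < 1 := by nlinarith
  set c : ℝ := B * ‖z - ζ‖ ^ (n + 1) / (n + 1).factorial with hc
  set φ : ℝ → ℂ := fun t => f (ζ + (t : ℂ) * (z - ζ)) with hφ
  have hderiv : ∀ t : ℝ, 0 < t → t ≤ 1 →
      HasDerivAt φ (deriv f (ζ + (t : ℂ) * (z - ζ)) * (z - ζ)) t := by
    intro t ht0 ht1
    have hmem := hseg t ht0 ht1
    have h1 : HasDerivAt f (deriv f (ζ + (t : ℂ) * (z - ζ))) (ζ + (t : ℂ) * (z - ζ)) :=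
      (hd.differentiableAt (isOpen_ball.mem_nhds hmem)).hasDerivAt
    have h2 : HasDerivAt (fun t : ℝ => ζ + (t : ℂ) * (z - ζ)) (z - ζ) t := by
      have h3 : HasDerivAt (fun t : ℝ => (t : ℂ)) 1 t := Complex.ofRealCLM.hasDerivAt
      have h4 := (h3.mul_const (z - ζ)).const_add ζ
      rwa [one_mul] at h4
    exact h1.comp t h2
  have hmain : ∀ ε : ℝ, 0 < ε → ε < 1 → ‖φ 1‖ ≤ ‖φ ε‖ + c * 1 ^ (n + 1) := by
    intro ε hε0 hε1
    have key := image_norm_le_of_norm_deriv_right_le_deriv_boundary (a := ε) (b := 1) (f := φ)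
      (f' := fun t => deriv f (ζ + (t : ℂ) * (z - ζ)) * (z - ζ))
      (B := fun t => ‖φ ε‖ + c * t ^ (n + 1))
      (B' := fun t => c * ((n + 1 : ℕ) * t ^ n)) ?_ ?_ ?_ ?_ ?_
    · exact key ⟨hε1.le, le_rfl⟩
    · intro t ht
      exact (hderiv t (hε0.trans_le ht.1) ht.2).continuousAt.continuousWithinAt
    · intro t ht
      exact (hderiv t (hε0.trans_le ht.1) ht.2.le).hasDerivWithinAt
    · have : 0 ≤ c := by positivity
      have h5 : 0 ≤ c * ε ^ (n + 1) := by positivity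
      show ‖φ ε‖ ≤ ‖φ ε‖ + c * ε ^ (n + 1)
      linarith
    · intro t
      have h6 := (hasDerivAt_pow (n + 1) t).const_mul c
      have h7 := h6.const_add ‖φ ε‖
      simpa using h7
    · intro t ht
      have ht0 : 0 < t := hε0.trans_le ht.1
      have h8 := hB _ (hseg t ht0 ht.2.le)
      rw [norm_mul]
      have h9 : ‖ζ + (t : ℂ) * (z - ζ) - ζ‖ = t * ‖z - ζ‖ := by
        rw [add_sub_cancel_left, norm_mul, Complex.norm_real, Real.norm_of_nonneg ht0.le]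
      rw [h9] at h8
      calc ‖deriv f (ζ + (t : ℂ) * (z - ζ))‖ * ‖z - ζ‖
          ≤ B * (t * ‖z - ζ‖) ^ n / n.factorial * ‖z - ζ‖ :=
            mul_le_mul_of_nonneg_right h8 (norm_nonneg _)
        _ = c * ((n + 1 : ℕ) * t ^ n) := by
            rw [hc, Nat.factorial_succ]
            push_cast
            have : (n.factorial : ℝ) ≠ 0 := by positivity
            field_simp
            ring
  -- the limit
  have hlim : Tendsto (fun ε : ℝ => ‖φ ε‖ + c * 1 ^ (n + 1)) (𝓝[>] 0) (𝓝 (‖(0 : ℂ)‖ + c * 1 ^ (n + 1))) := by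
    have h1 : Tendsto (fun ε : ℝ => ζ + (ε : ℂ) * (z - ζ)) (𝓝[>] 0) (𝓝[ball 0 1] ζ) := by
      rw [tendsto_nhdsWithin_iff]
      constructor
      · have h2 : Continuous (fun ε : ℝ => ζ + (ε : ℂ) * (z - ζ)) := by fun_prop
        have h3 := h2.tendsto 0
        simp only [Complex.ofReal_zero, zero_mul, add_zero] at h3
        exact h3.mono_left nhdsWithin_le_nhds
      · have h4 : Set.Ioo (0 : ℝ) 1 ∈ 𝓝[>] (0 : ℝ) := Ioo_mem_nhdsGT (by norm_num)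
        filter_upwards [h4] with ε hε
        exact hseg ε hε.1 hε.2.le
    exact (((h0.comp h1).norm).add tendsto_const_nhds)
  have hfin : ‖φ 1‖ ≤ ‖(0 : ℂ)‖ + c * 1 ^ (n + 1) := by
    refine ge_of_tendsto hlim ?_
    have h4 : Set.Ioo (0 : ℝ) 1 ∈ 𝓝[>] (0 : ℝ) := Ioo_mem_nhdsGT (by norm_num)
    filter_upwards [h4] with ε hε
    exact hmain ε hε.1 hε.2
  have h5 : φ 1 = f z := by
    rw [hφ]
    simp
  rw [h5, norm_zero, one_pow, mul_one, zero_add] at hfin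
  exact hfin

theorem taylor_bound (f : ℂ → ℂ) (hd : DifferentiableOn ℂ f (ball 0 1)) (ζ : ℂ) (hζ : ‖ζ‖ = 1)
    (h0 : ∀ n : ℕ, Tendsto (iteratedDeriv n f) (𝓝[ball 0 1] ζ) (𝓝 0)) (n : ℕ) (B : ℝ)
    (hB : ∀ z ∈ ball (0:ℂ) 1, ‖iteratedDeriv n f z‖ ≤ B) :
    ∀ z ∈ ball (0:ℂ) 1, ‖f z‖ ≤ B * ‖z - ζ‖ ^ n / n.factorial := by
  have hB0 : 0 ≤ B := (norm_nonneg _).trans (hB 0 (by simp))
  induction n generalizing f with
  | zero =>
    intro z hz
    have := hB z hz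
    simpa using this
  | succ n ih =>
    have hd' : DifferentiableOn ℂ (deriv f) (ball 0 1) := hd.deriv isOpen_ball
    have h0' : ∀ m : ℕ, Tendsto (iteratedDeriv m (deriv f)) (𝓝[ball 0 1] ζ) (𝓝 0) := by
      intro m
      have := h0 (m + 1)
      rwa [iteratedDeriv_succ'] at this
    have hB' : ∀ z ∈ ball (0:ℂ) 1, ‖iteratedDeriv n (deriv f) z‖ ≤ B := by
      intro z hz
      have := hB z hz
      rwa [iteratedDeriv_succ'] at this
    have h1 := ih (deriv f) hd' h0' hB'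
    have h2 := h0 0
    rw [iteratedDeriv_zero] at h2
    exact taylor_step f hd ζ hζ h2 n B hB0 h1

end H428PK
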