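import Pool.Agent.H428R2.PK.Defs
import Pool.Agent.H428R2.PK.Z1
namespace H428PK
open Complex Metric Set Filter Topology

/- Z2: EXPONENTIAL FLATNESS: |f(z)| ≤ A exp(-c |z-ζ|^{-α})

PROOF NOTES: Let C be the constant of IsG; we may increase it to C ≥ 1 (C ≥ 0 follows from n = 0, or use |C|+1: C^(n+1) ≤ |C|^(n+1)). Z1 with B = C^(n+1)(n!)^(1+1/α): ‖f z‖ ≤ C^(n+1) (n!)^(1/α) x^n, x = ‖z-ζ‖ > 0, ≤ C (C x n^(1/α))^n (n! ≤ n^n, Nat.factorial_le_pow). Take n = ⌊(eCx)^(-α)⌋₊: n^(1/α) ≤ 1/(eCx), so (C x n^(1/α))^n ≤ e^(-n) ≤ e^(1-(eCx)^(-α)). So A = C e, c = (eC)^(-α).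
-/

theorem flat_bound (α : ℝ) (h0 : 0 < α) (h1 : α ≤ 1) (f : ℂ → ℂ) (hf : IsG α f) (E : Set ℂ)
    (hE : E ⊆ sphere 0 1)
    (hz : ∀ n : ℕ, ∀ ζ ∈ E, Tendsto (iteratedDeriv n f) (𝓝[ball 0 1] ζ) (𝓝 0)) :
    ∃ A c : ℝ, 0 < A ∧ 0 < c ∧ ∀ ζ ∈ E, ∀ z ∈ ball (0:ℂ) 1,
      ‖f z‖ ≤ A * Real.exp (-(c * ‖z - ζ‖ ^ (-α))) := by
  obtain ⟨hd, C0, hC0⟩ := hf
  set C : ℝ := |C0| + 1 with hC
  have hC1 : 1 ≤ C := by
    have := abs_nonneg C0
    linarith
  have hCpos : 0 < C := by linarith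
  have hB : ∀ n : ℕ, ∀ z ∈ ball (0:ℂ) 1,
      ‖iteratedDeriv n f z‖ ≤ C ^ (n+1) * (n.factorial : ℝ) ^ (1 + 1/α) := by
    intro n z hz
    refine (hC0 n z hz).trans ?_
    refine mul_le_mul_of_nonneg_right ?_ (by positivity)
    calc C0 ^ (n+1) ≤ |C0 ^ (n+1)| := le_abs_self _
      _ = |C0| ^ (n+1) := abs_pow _ _
      _ ≤ C ^ (n+1) := pow_le_pow_left₀ (abs_nonneg _) (by linarith) _
  refine ⟨C * Real.exp 1, (Real.exp 1 * C) ^ (-α), by positivity, by positivity, ?_⟩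
  intro ζ hζ z hzb
  have hζ1 : ‖ζ‖ = 1 := by simpa using hE hζ
  have hz1 : ‖z‖ < 1 := by simpa using hzb
  have hx : 0 < ‖z - ζ‖ := by
    rw [norm_pos_iff, sub_ne_zero]
    rintro rfl
    linarith
  set x := ‖z - ζ‖ with hxd
  set y : ℝ := (Real.exp 1 * C * x) ^ (-α) with hy
  have hy0 : 0 < y := by positivity
  set n : ℕ := ⌊y⌋₊ with hn
  have hny : (n : ℝ) ≤ y := Nat.floor_le hy0.le
  have hny' : y < n + 1 := Nat.lt_floor_add_one y
  have h2 := taylor_bound f hd ζ hζ1 (fun n => hz n ζ hζ) n _ (hB n) z hzb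
  have hfac : (0 : ℝ) < n.factorial := by exact_mod_cast n.factorial_pos
  have h3 : C ^ (n+1) * (n.factorial : ℝ) ^ (1 + 1/α) * x ^ n / n.factorial =
      C * ((C * x) ^ n * (n.factorial : ℝ) ^ (1/α)) := by
    rw [Real.rpow_add hfac, Real.rpow_one, mul_pow, pow_succ]
    field_simp
  have h4 : (n.factorial : ℝ) ^ (1/α) ≤ ((n : ℝ) ^ (1/α)) ^ n := by
    have h5 : (n.factorial : ℝ) ≤ (n : ℝ) ^ n := by exact_mod_cast Nat.factorial_le_pow n
    calc (n.factorial : ℝ) ^ (1/α) ≤ ((n : ℝ) ^ n) ^ (1/α) :=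
          Real.rpow_le_rpow hfac.le h5 (by positivity)
      _ = ((n : ℝ) ^ (1/α)) ^ n := by
          rw [← Real.rpow_natCast, ← Real.rpow_natCast, ← Real.rpow_mul (by positivity),
            ← Real.rpow_mul (by positivity), mul_comm]
  have h6 : (n : ℝ) ^ (1/α) ≤ (Real.exp 1 * C * x)⁻¹ := by
    calc (n : ℝ) ^ (1/α) ≤ y ^ (1/α) := Real.rpow_le_rpow (by positivity) hny (by positivity)
      _ = (Real.exp 1 * C * x)⁻¹ := by
          rw [hy, ← Real.rpow_mul (by positivity)]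
          have : -α * (1/α) = -1 := by field_simp
          rw [this, Real.rpow_neg_one]
  have h7 : C * x * (n : ℝ) ^ (1/α) ≤ Real.exp (-1) := by
    calc C * x * (n : ℝ) ^ (1/α) ≤ C * x * (Real.exp 1 * C * x)⁻¹ :=
          mul_le_mul_of_nonneg_left h6 (by positivity)
      _ = Real.exp (-1) := by
          have hCx : C * x ≠ 0 := by positivity
          rw [mul_assoc (Real.exp 1) C x, mul_inv, Real.exp_neg,
            mul_comm (C * x) ((Real.exp 1)⁻¹ * (C * x)⁻¹), mul_assoc, inv_mul_cancel₀ hCx, mul_one]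
  have h8 : (C * x) ^ n * (n.factorial : ℝ) ^ (1/α) ≤ Real.exp (1 - y) := by
    calc (C * x) ^ n * (n.factorial : ℝ) ^ (1/α) ≤ (C * x) ^ n * ((n : ℝ) ^ (1/α)) ^ n :=
          mul_le_mul_of_nonneg_left h4 (by positivity)
      _ = (C * x * (n : ℝ) ^ (1/α)) ^ n := (mul_pow _ _ _).symm
      _ ≤ (Real.exp (-1)) ^ n := pow_le_pow_left₀ (by positivity) h7 n
      _ = Real.exp (-(n : ℝ)) := by
          rw [← Real.exp_nat_mul]
          congr 1
          ring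
      _ ≤ Real.exp (1 - y) := Real.exp_le_exp.2 (by linarith)
  rw [h3] at h2
  refine h2.trans ?_
  have h9 : (Real.exp 1 * C) ^ (-α) * x ^ (-α) = y := by
    rw [hy, Real.mul_rpow (by positivity) hx.le]
  rw [h9, mul_assoc, ← Real.exp_add]
  refine mul_le_mul_of_nonneg_left ?_ hCpos.le
  rw [← sub_eq_add_neg]
  exact h8

end H428PK
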