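import Pool.Agent.H428R2.PK.Defs

namespace H428PK
open Complex Metric Set Filter Topology

/-! Z3: JENSEN: circle averages of log|f| are bounded below -/

/-- the divisor of an analytic function at a point, as a real number independent of the set -/
theorem Z3_div {f : ℂ → ℂ} {U : Set ℂ} (hf : AnalyticOnNhd ℂ f U) {z : ℂ} (hz : z ∈ U) :
    MeromorphicOn.divisor f U z = ((analyticOrderNatAt f z : ℕ) : ℤ) := by
  rw [MeromorphicOn.AnalyticOnNhd.divisor_apply hf hz]
  unfold analyticOrderNatAt
  cases h : analyticOrderAt f z with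
  | top => simp
  | coe n => simp

theorem jensen_lower (f : ℂ → ℂ) (hd : DifferentiableOn ℂ f (ball 0 1))
    (hne : ∃ z ∈ ball (0:ℂ) 1, f z ≠ 0) :
    ∃ L : ℝ, ∀ R : ℝ, 1/2 < R → R < 1 →
      CircleIntegrable (fun z => Real.log ‖f z‖) 0 R ∧
      L ≤ Real.circleAverage (fun z => Real.log ‖f z‖) 0 R := by
  have hA : AnalyticOnNhd ℂ f (ball 0 1) := hd.analyticOnNhd isOpen_ball
  refine ⟨-(analyticOrderNatAt f 0 : ℝ) * Real.log 2 + Real.log ‖meromorphicTrailingCoeffAt f 0‖,
    ?_⟩
  intro R hR1 hR2
  have hR0 : 0 < R := by linarith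
  have habs : |R| = R := abs_of_pos hR0
  have hsub : closedBall (0 : ℂ) |R| ⊆ ball 0 1 := by
    rw [habs]
    exact closedBall_subset_ball hR2
  have hB : AnalyticOnNhd ℂ f (closedBall 0 |R|) := hA.mono hsub
  have hM : MeromorphicOn f (closedBall 0 |R|) := hB.meromorphicOn
  refine ⟨(hM.mono_set sphere_subset_closedBall).circleIntegrable_log_norm, ?_⟩
  rw [MeromorphicOn.circleAverage_log_norm hR0.ne' hM]
  have h0 : (0 : ℂ) ∈ closedBall (0 : ℂ) |R| := mem_closedBall_self (abs_nonneg R)
  have e0 : MeromorphicOn.divisor f (closedBall 0 |R|) 0 = ((analyticOrderNatAt f 0 : ℕ) : ℤ) :=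
    Z3_div hB h0
  have h1 : 0 ≤ ∑ᶠ u, (MeromorphicOn.divisor f (closedBall 0 |R|) u : ℝ) *
      Real.log (R * ‖(0 : ℂ) - u‖⁻¹) := by
    apply finsum_nonneg
    intro u
    by_cases hu : u ∈ closedBall (0 : ℂ) |R|
    · apply mul_nonneg
      · rw [Z3_div hB hu]
        push_cast
        exact Nat.cast_nonneg _
      · by_cases hu0 : u = 0
        · rw [hu0]
          simp
        · apply Real.log_nonneg
          have h2 : 0 < ‖(0 : ℂ) - u‖ := by
            rw [zero_sub, norm_neg]
            exact norm_pos_iff.mpr hu0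
          rw [← div_eq_mul_inv, one_le_div h2, zero_sub, norm_neg]
          rw [mem_closedBall, dist_zero_right, habs] at hu
          exact hu
    · have : MeromorphicOn.divisor f (closedBall 0 |R|) u = 0 := by
        exact Function.locallyFinsuppWithin.apply_eq_zero_of_notMem _ hu
      rw [this]
      simp
  have h2 : -(analyticOrderNatAt f 0 : ℝ) * Real.log 2 ≤
      (MeromorphicOn.divisor f (closedBall 0 |R|) 0 : ℝ) * Real.log R := by
    rw [e0]
    push_cast
    have h3 : -Real.log 2 ≤ Real.log R := by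
      rw [← Real.log_inv]
      apply Real.log_le_log (by norm_num)
      linarith
    have h4 : (0 : ℝ) ≤ (analyticOrderNatAt f 0 : ℝ) := Nat.cast_nonneg _
    nlinarith
  linarith

end H428PK
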