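import Pool.Agent.H428R2.PK.Defs
import Pool.Agent.H428R2.PK.Z2
import Pool.Agent.H428R2.PK.Z3
namespace H428PK
open Complex Metric Set Filter Topology

/- Z4: INTEGRAL CRITERION: a zero set has bounded integrals ∫(ε+dist)^{-α} -/

theorem Z4_pointwise (α : ℝ) (h0 : 0 < α) (E : Set ℂ) (hE : E ⊆ sphere 0 1)
    (hne : E.Nonempty) (f : ℂ → ℂ) (A c : ℝ) (hA : 0 < A) (hc : 0 < c)
    (hflat : ∀ ζ ∈ E, ∀ z ∈ ball (0:ℂ) 1, ‖f z‖ ≤ A * Real.exp (-(c * ‖z - ζ‖ ^ (-α))))
    (ε : ℝ) (he : 0 < ε) (he2 : ε < 1/2) (t : ℝ) (hf : f (circleMap 0 (1 - ε) t) ≠ 0) :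
    Real.log ‖f (circleMap 0 (1 - ε) t)‖ ≤
      Real.log A - c * 2 ^ (-α) * (ε + infDist (Complex.exp ((t : ℂ) * I)) E) ^ (-α) := by
  set z : ℂ := circleMap 0 (1 - ε) t with hz
  set w : ℂ := Complex.exp ((t : ℂ) * I) with hw
  set x : ℝ := ε + infDist w E with hx
  have hzw : z = ((1 - ε : ℝ) : ℂ) * w := by
    rw [hz, hw]
    simp [circleMap]
  have hwn : ‖w‖ = 1 := by rw [hw]; exact Complex.norm_exp_ofReal_mul_I t
  have hzn : ‖z‖ = 1 - ε := by
    rw [hzw, norm_mul, hwn, Complex.norm_real, mul_one, Real.norm_of_nonneg (by linarith)]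
  have hx0 : 0 < x := by have := infDist_nonneg (x := w) (s := E); linarith
  have hd : dist z w = ε := by
    rw [dist_eq_norm, hzw, show ((1 - ε : ℝ) : ℂ) * w - w = ((-ε : ℝ) : ℂ) * w by push_cast; ring,
      norm_mul, hwn, Complex.norm_real, mul_one, norm_neg, Real.norm_of_nonneg he.le]
  have hle : infDist z E ≤ x := by
    have := infDist_le_infDist_add_dist (s := E) (x := z) (y := w)
    rw [hd] at this
    linarith
  obtain ⟨ζ, hζ, hζ2⟩ := (infDist_lt_iff hne (r := 2 * x) (x := z)).1 (by linarith)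
  have hζn : ‖ζ‖ = 1 := by simpa using hE hζ
  have hpos : 0 < ‖z - ζ‖ := by
    rw [norm_pos_iff, sub_ne_zero]
    intro h
    rw [h, hζn] at hzn
    linarith
  have h1 := hflat ζ hζ z (by rw [mem_ball_zero_iff, hzn]; linarith)
  rw [dist_eq_norm] at hζ2
  have h2 : (2 * x) ^ (-α) ≤ ‖z - ζ‖ ^ (-α) :=
    Real.rpow_le_rpow_of_nonpos hpos hζ2.le (by linarith)
  rw [Real.mul_rpow (by norm_num) hx0.le] at h2
  have h3 : ‖f z‖ ≤ A * Real.exp (-(c * 2 ^ (-α) * x ^ (-α))) := by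
    refine h1.trans (mul_le_mul_of_nonneg_left ?_ hA.le)
    rw [Real.exp_le_exp, neg_le_neg_iff, mul_assoc]
    exact mul_le_mul_of_nonneg_left h2 hc.le
  have h4 := Real.log_le_log (norm_pos_iff.2 hf) h3
  rw [Real.log_mul hA.ne' (Real.exp_pos _).ne', Real.log_exp] at h4
  linarith

theorem zero_criterion (α : ℝ) (h0 : 0 < α) (h1 : α ≤ 1) (E : Set ℂ) (hE : E ⊆ sphere 0 1)
    (hne : E.Nonempty) (hZ : IsZeroSet α E) :
    ∃ B : ℝ, ∀ ε : ℝ, 0 < ε → ε < 1/2 →
      ∫ t in (0:ℝ)..(2 * Real.pi),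
        (ε + infDist (Complex.exp ((t : ℂ) * I)) E) ^ (-α) ≤ B := by
  obtain ⟨f, hG, hne0, hz⟩ := hZ
  obtain ⟨A, c, hA, hc, hflat⟩ := flat_bound α h0 h1 f hG E hE hz
  obtain ⟨L, hL⟩ := jensen_lower f hG.1 hne0
  have hpi := Real.pi_pos
  set c' : ℝ := c * 2 ^ (-α) with hc'
  have hc'0 : 0 < c' := by positivity
  refine ⟨2 * Real.pi / c' * (Real.log A - L), fun ε he he2 => ?_⟩
  obtain ⟨hci, hLle⟩ := hL (1 - ε) (by linarith) (by linarith)
  have hR0 : (1 - ε : ℝ) ≠ 0 := by linarith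
  -- continuity
  have hcont : Continuous fun t : ℝ => ε + infDist (Complex.exp ((t : ℂ) * I)) E := by
    refine continuous_const.add ((continuous_infDist_pt E).comp ?_)
    fun_prop
  have hxpos : ∀ t : ℝ, 0 < ε + infDist (Complex.exp ((t : ℂ) * I)) E := by
    intro t
    have := infDist_nonneg (x := Complex.exp ((t : ℂ) * I)) (s := E)
    linarith
  have hcont2 : Continuous fun t : ℝ =>
      (ε + infDist (Complex.exp ((t : ℂ) * I)) E) ^ (-α) :=
    hcont.rpow_const (fun t => Or.inl (hxpos t).ne')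
  -- nonvanishing almost everywhere
  have hcod : {z | f z ≠ 0} ∈ codiscreteWithin (ball (0 : ℂ) 1) := by
    rcases (hG.1.analyticOnNhd isOpen_ball).eqOn_zero_or_eventually_ne_zero_of_preconnected
      (convex_ball (0 : ℂ) 1).isPreconnected with h | h
    · obtain ⟨z, hz1, hz2⟩ := hne0
      exact absurd (h hz1) hz2
    · exact h
  have hsub : sphere (0 : ℂ) |1 - ε| ⊆ ball 0 1 := by
    intro z hz1
    rw [mem_sphere_zero_iff_norm, abs_of_pos (by linarith)] at hz1
    rw [mem_ball_zero_iff, hz1]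
    linarith
  have hae : ∀ᵐ t ∂(MeasureTheory.volume.restrict (Icc (0:ℝ) (2 * Real.pi))),
      f (circleMap 0 (1 - ε) t) ≠ 0 := by
    apply ae_restrict_le_codiscreteWithin measurableSet_Icc
    apply codiscreteWithin_mono (subset_univ _)
      (circleMap_preimage_codiscrete hR0 (codiscreteWithin_mono hsub hcod))
  have hmono := intervalIntegral.integral_mono_ae_restrict (μ := MeasureTheory.volume)
    (a := 0) (b := 2 * Real.pi) (by positivity)
    (f := fun t => Real.log ‖f (circleMap 0 (1 - ε) t)‖)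
    (g := fun t => Real.log A - c' * (ε + infDist (Complex.exp ((t : ℂ) * I)) E) ^ (-α))
    hci ((continuous_const.sub (continuous_const.mul hcont2)).intervalIntegrable _ _) (by
      filter_upwards [hae] with t ht
      exact Z4_pointwise α h0 E hE hne f A c hA hc hflat ε he he2 t ht)
  have hsplit : ∫ t in (0:ℝ)..(2 * Real.pi), (Real.log A -
      c' * (ε + infDist (Complex.exp ((t : ℂ) * I)) E) ^ (-α)) =
      2 * Real.pi * Real.log A - c' * ∫ t in (0:ℝ)..(2 * Real.pi),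
        (ε + infDist (Complex.exp ((t : ℂ) * I)) E) ^ (-α) := by
    rw [intervalIntegral.integral_sub (continuous_const.intervalIntegrable _ _)
      ((hcont2.const_mul c').intervalIntegrable _ _), intervalIntegral.integral_const,
      intervalIntegral.integral_const_mul]
    simp
  rw [hsplit] at hmono
  rw [Real.circleAverage_def, smul_eq_mul] at hLle
  set Iv := ∫ t in (0:ℝ)..(2 * Real.pi), (ε + infDist (Complex.exp ((t : ℂ) * I)) E) ^ (-α)
    with hIv
  have h5 : 2 * Real.pi * L ≤ ∫ t in (0:ℝ)..(2 * Real.pi),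
      Real.log ‖f (circleMap 0 (1 - ε) t)‖ := by
    have h6 := mul_le_mul_of_nonneg_left hLle (by positivity : (0:ℝ) ≤ 2 * Real.pi)
    rwa [← mul_assoc, mul_inv_cancel₀ (by positivity), one_mul] at h6
  have h7 : c' * Iv ≤ 2 * Real.pi * (Real.log A - L) := by
    nlinarith
  rw [div_mul_eq_mul_div, le_div_iff₀ hc'0]
  linarith

end H428PK
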