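import Pool.Agent.H428R2.PK.Defs
import Pool.Agent.H428R2.PK.C1
import Pool.Agent.H428R2.PK.C2
import Pool.Agent.H428R2.PK.Z4
namespace H428PK
open Complex Metric Set Filter Topology

/- Z5: DIVERGENCE for the concrete set: Eset (zz α) is not a zero set (0<α<1) -/

theorem Z5_norm_exp_sub (s t : ℝ) :
    ‖Complex.exp ((s : ℂ) * I) - Complex.exp ((t : ℂ) * I)‖ ≤ |s - t| := by
  have h1 : Complex.exp ((s : ℂ) * I) - Complex.exp ((t : ℂ) * I) =
      Complex.exp ((t : ℂ) * I) * (Complex.exp (I * ((s - t : ℝ) : ℂ)) - 1) := by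
    rw [mul_sub, ← Complex.exp_add, mul_one]
    congr 2
    push_cast
    ring
  rw [h1, norm_mul, Complex.norm_exp_ofReal_mul_I, one_mul]
  exact Real.norm_exp_I_mul_ofReal_sub_one_le

theorem Z5_dist (α : ℝ) (k : ℕ) (t : ℝ) (ht : t ∈ Icc (aa k) (2 * aa k)) :
    infDist (Complex.exp ((t : ℂ) * I)) (Eset (zz α)) ≤ aa k / (NN α k : ℝ) := by
  have ha := (aa_pos k).1
  have hN : 1 ≤ NN α k := NN_pos α k
  have hN' : (0 : ℝ) < NN α k := by exact_mod_cast hN
  set N := NN α k with hNdef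
  set a := aa k with hadef
  set s : ℝ := (t / a - 1) * N with hs
  have hs0 : 0 ≤ s := by
    have : 1 ≤ t / a := by rw [le_div_iff₀ ha]; linarith [ht.1]
    exact mul_nonneg (by linarith) hN'.le
  have hsN : s ≤ N := by
    have : t / a ≤ 2 := by rw [div_le_iff₀ ha]; linarith [ht.2]
    nlinarith
  set j : ℕ := min ⌊s⌋₊ (N - 1) with hj
  have hjN : j < N := by
    have : j ≤ N - 1 := min_le_right _ _
    omega
  have hsj : |s - j| ≤ 1 := by
    have h1 := Nat.floor_le hs0
    have h2 := Nat.lt_floor_add_one s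
    rcases le_total ⌊s⌋₊ (N - 1) with h | h
    · rw [hj, min_eq_left h, abs_le]
      constructor <;> linarith
    · rw [hj, min_eq_right h]
      have h3 : ((N - 1 : ℕ) : ℝ) = N - 1 := by
        rw [Nat.cast_sub hN]; simp
      have h4 : ((N - 1 : ℕ) : ℝ) ≤ (⌊s⌋₊ : ℝ) := by exact_mod_cast h
      rw [h3] at h4 ⊢
      rw [abs_le]
      constructor <;> linarith
  have hmem : zz α ⟨k, ⟨j, hjN⟩⟩ ∈ Eset (zz α) := Or.inr ⟨_, rfl⟩
  refine (infDist_le_dist_of_mem hmem).trans ?_
  rw [dist_eq_norm]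
  have hz : zz α ⟨k, ⟨j, hjN⟩⟩ = Complex.exp (((a * (1 + j / N) : ℝ) : ℂ) * I) := rfl
  rw [hz]
  refine (Z5_norm_exp_sub _ _).trans ?_
  have h5 : t - a * (1 + j / N) = (a / N) * (s - j) := by
    rw [hs]
    field_simp
    ring
  rw [h5, abs_mul, abs_of_pos (div_pos ha hN')]
  exact mul_le_of_le_one_right (div_pos ha hN').le hsj

theorem Z5_eps (α : ℝ) (K : ℕ) : ∃ ε : ℝ, 0 < ε ∧ ε < 1 / 2 ∧
    ∀ k < K, ε ≤ aa k / (NN α k : ℝ) := by
  induction K with
  | zero => exact ⟨1 / 4, by norm_num, by norm_num, fun k hk => absurd hk (Nat.not_lt_zero k)⟩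
  | succ K ih =>
    obtain ⟨ε, h1, h2, h3⟩ := ih
    have hN : 1 ≤ NN α K := NN_pos α K
    have hN' : (0 : ℝ) < NN α K := by exact_mod_cast hN
    refine ⟨min ε (aa K / (NN α K : ℝ)), lt_min h1 (div_pos (aa_pos K).1 hN'),
      (min_le_left _ _).trans_lt h2, fun k hk => ?_⟩
    rcases Nat.lt_succ_iff_lt_or_eq.1 hk with h | h
    · exact (min_le_left _ _).trans (h3 k h)
    · rw [h]; exact min_le_right _ _

theorem concrete_not_zero (α : ℝ) (h0 : 0 < α) (h1 : α < 1) :
    ¬ IsZeroSet α (Eset (zz α)) := by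
  intro hZ
  have hE : Eset (zz α) ⊆ sphere 0 1 := by
    rintro z (rfl | ⟨i, rfl⟩)
    · simp
    · rw [mem_sphere_zero_iff_norm]
      exact pt_norm _ _ _
  obtain ⟨B, hB⟩ := zero_criterion α h0 h1.le (Eset (zz α)) hE ⟨1, Or.inl rfl⟩ hZ
  obtain ⟨K, hK⟩ := ((tendsto_atTop.1 Real.tendsto_sum_range_one_div_nat_succ_atTop)
    (2 * B + 1)).exists
  obtain ⟨ε, e1, e2, e3⟩ := Z5_eps α K
  have hBε := hB ε e1 e2
  set h : ℝ → ℝ := fun t =>
    (ε + infDist (Complex.exp ((t : ℂ) * I)) (Eset (zz α))) ^ (-α) with hh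
  have hxpos : ∀ t : ℝ, 0 < ε + infDist (Complex.exp ((t : ℂ) * I)) (Eset (zz α)) := by
    intro t
    have := infDist_nonneg (x := Complex.exp ((t : ℂ) * I)) (s := Eset (zz α))
    linarith
  have hcont : Continuous h := by
    have : Continuous fun t : ℝ => ε + infDist (Complex.exp ((t : ℂ) * I)) (Eset (zz α)) := by
      refine continuous_const.add ((continuous_infDist_pt (Eset (zz α))).comp ?_)
      fun_prop
    exact this.rpow_const (fun t => Or.inl (hxpos t).ne')
  have hnn : ∀ t, 0 ≤ h t := fun t => Real.rpow_nonneg (hxpos t).le _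
  have hint : ∀ x y : ℝ, IntervalIntegrable h MeasureTheory.volume x y := fun x y =>
    hcont.intervalIntegrable x y
  have hpi := Real.pi_gt_three
  -- one block
  have hblock : ∀ k < K, 1 / (2 * ((k : ℝ) + 1)) ≤ ∫ t in (aa k)..(2 * aa k), h t := by
    intro k hk
    have ha := (aa_pos k).1
    have hN : 1 ≤ NN α k := NN_pos α k
    have hN' : (0 : ℝ) < NN α k := by exact_mod_cast hN
    have hg : 0 < aa k / (NN α k : ℝ) := div_pos ha hN'
    have hlow : ∀ t ∈ Icc (aa k) (2 * aa k), 1 / 2 * (aa k / (NN α k : ℝ)) ^ (-α) ≤ h t := by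
      intro t ht
      have h2 := Z5_dist α k t ht
      have h3 := e3 k hk
      have h4 : (2 * (aa k / (NN α k : ℝ))) ^ (-α) ≤ h t :=
        Real.rpow_le_rpow_of_nonpos (hxpos t) (by linarith) (by linarith)
      refine le_trans ?_ h4
      rw [Real.mul_rpow (by norm_num) hg.le]
      refine mul_le_mul_of_nonneg_right ?_ (by positivity)
      rw [show (1 / 2 : ℝ) = 2 ^ (-1 : ℝ) by rw [Real.rpow_neg_one]; norm_num]
      exact Real.rpow_le_rpow_of_exponent_le (by norm_num) (by linarith)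
    have h5 := intervalIntegral.integral_mono_on (a := aa k) (b := 2 * aa k) (by linarith)
      (continuous_const.intervalIntegrable (μ := MeasureTheory.volume)
        (u := fun _ : ℝ => 1 / 2 * (aa k / (NN α k : ℝ)) ^ (-α)) _ _) (hint _ _) hlow
    rw [intervalIntegral.integral_const, smul_eq_mul] at h5
    refine le_trans ?_ h5
    have h6 := div_term α h0 h1 k
    have e : 1 / (2 * ((k : ℝ) + 1)) = 1 / 2 * (1 / ((k : ℝ) + 1)) := by
      rw [one_div_mul_one_div]
    rw [e]
    nlinarith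
  have haa : ∀ k, 2 * aa (k + 1) ≤ aa k := by
    intro k
    unfold aa
    rw [pow_succ (1 / 16 : ℝ) (k + 1)]
    have : (0:ℝ) < (1 / 16) ^ (k + 1) := by positivity
    linarith
  have hsum : ∀ k ≤ K, ∑ i ∈ Finset.range k, 1 / (2 * ((i : ℝ) + 1)) ≤
      ∫ t in (2 * aa k)..(2 * Real.pi), h t := by
    intro k
    induction k with
    | zero =>
      intro _
      rw [Finset.range_zero, Finset.sum_empty]
      have := (aa_pos 0).2
      exact intervalIntegral.integral_nonneg (by linarith) fun t _ => hnn t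
    | succ k ih =>
      intro hk
      rw [Finset.sum_range_succ]
      have h2 := ih (by omega)
      have h3 := hblock k (by omega)
      have h4 : 0 ≤ ∫ t in (2 * aa (k + 1))..(aa k), h t :=
        intervalIntegral.integral_nonneg (haa k) fun t _ => hnn t
      rw [← intervalIntegral.integral_add_adjacent_intervals (hint (2 * aa (k + 1)) (aa k))
        (hint (aa k) (2 * Real.pi)),
        ← intervalIntegral.integral_add_adjacent_intervals (hint (aa k) (2 * aa k))
        (hint (2 * aa k) (2 * Real.pi))]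
      linarith
  have h7 := hsum K le_rfl
  have h8 : 0 ≤ ∫ t in (0:ℝ)..(2 * aa K), h t :=
    intervalIntegral.integral_nonneg (by have := (aa_pos K).1; linarith) fun t _ => hnn t
  rw [← intervalIntegral.integral_add_adjacent_intervals (hint 0 (2 * aa K))
    (hint (2 * aa K) (2 * Real.pi))] at hBε
  have h9 : ∑ i ∈ Finset.range K, 1 / (2 * ((i : ℝ) + 1)) =
      1 / 2 * ∑ i ∈ Finset.range K, 1 / ((i : ℝ) + 1) := by
    rw [Finset.mul_sum]
    refine Finset.sum_congr rfl fun i _ => ?_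
    rw [one_div_mul_one_div]
  rw [h9] at h7
  linarith

end H428PK
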