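import Pool.Agent.H428R2.PK.Defs
import Pool.Agent.H428R2.PK.Z4
namespace H428PK
open Complex Metric Set Filter Topology

/- Z6: CASE α = 1: {1} is a peak set for A_1 but not a zero set for G_1

PROOF NOTES: one_peak: f z = (1+z)/2; ‖1+z‖ < 2 for ‖z‖ = 1, z ≠ 1. one_not_zero: B from zero_criterion (Z4) with α = 1, E = {1}: infDist e^{it} {1} = ‖e^{it}-1‖ ≤ t (Metric.infDist_singleton), so ∫_0^{2π} (ε+t)^{-1} dt ≤ ∫ h ≤ B; the left side is log((2π+ε)/ε) → ∞ as ε → 0+ (rpow (-1) = inv).
-/

theorem one_peak : IsPeakSet 1 ({1} : Set ℂ) := by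
  refine ⟨by simp, isClosed_singleton, fun z => (1 + z) / 2, ⟨?_, ?_, 1/2, ?_⟩, ?_, ?_⟩
  · fun_prop
  · fun_prop
  · intro z _ w _
    have : (1 + z) / 2 - (1 + w) / 2 = (z - w) / 2 := by ring
    simp only [this, Real.rpow_one]
    rw [norm_div]
    simp
    linarith
  · intro z hz
    simp only [mem_singleton_iff] at hz
    subst hz
    norm_num
  · intro z hz hne
    simp only [mem_singleton_iff] at hne
    have h1 : z.re ^ 2 + z.im ^ 2 = 1 := by
      have := mem_sphere_zero_iff_norm.1 hz
      have h2 := Complex.sq_norm z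
      rw [this, Complex.normSq_apply] at h2
      nlinarith
    have hre : z.re < 1 := by
      by_contra hcon
      push Not at hcon
      have him : z.im = 0 := by nlinarith
      have hre1 : z.re = 1 := by nlinarith
      exact hne (Complex.ext (by simp [hre1]) (by simp [him]))
    have h3 : ‖1 + z‖ ^ 2 < 4 := by
      rw [Complex.sq_norm, Complex.normSq_apply]
      simp
      nlinarith
    have h4 : ‖1 + z‖ < 2 := by
      nlinarith [norm_nonneg (1 + z)]
    rw [norm_div]
    simp
    linarith

theorem one_not_zero : ¬ IsZeroSet 1 ({1} : Set ℂ) := by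
  intro hZ
  obtain ⟨B, hB⟩ := zero_criterion 1 one_pos le_rfl {1} (by simp) (singleton_nonempty 1) hZ
  -- choose ε
  set ε : ℝ := min (1/4) (Real.exp (-(|B| + 1))) with hε
  have hε0 : 0 < ε := lt_min (by norm_num) (Real.exp_pos _)
  have hε1 : ε < 1/2 := lt_of_le_of_lt (min_le_left _ _) (by norm_num)
  have h := hB ε hε0 hε1
  have hpi : (0:ℝ) ≤ 2 * Real.pi := by positivity
  have hle : ∫ t in (0:ℝ)..(2 * Real.pi), (ε + t)⁻¹ ≤
      ∫ t in (0:ℝ)..(2 * Real.pi),
        (ε + infDist (Complex.exp ((t : ℂ) * I)) ({1} : Set ℂ)) ^ (-(1:ℝ)) := by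
    apply intervalIntegral.integral_mono_on hpi
    · apply ContinuousOn.intervalIntegrable
      rw [uIcc_of_le hpi]
      apply ContinuousOn.inv₀ (by fun_prop)
      intro t ht
      have := ht.1
      positivity
    · apply Continuous.intervalIntegrable
      apply Continuous.rpow_const
      · apply Continuous.add continuous_const
        apply (continuous_infDist_pt _).comp
        fun_prop
      · intro t
        left
        have : 0 ≤ infDist (Complex.exp ((t : ℂ) * I)) ({1} : Set ℂ) := infDist_nonneg
        positivity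
    · intro t ht
      rw [Real.rpow_neg_one]
      have h0 : 0 ≤ infDist (Complex.exp ((t : ℂ) * I)) ({1} : Set ℂ) := infDist_nonneg
      apply inv_anti₀ (by positivity)
      have h1 : infDist (Complex.exp ((t : ℂ) * I)) ({1} : Set ℂ) ≤ t := by
        rw [infDist_singleton, dist_eq_norm, mul_comm]
        have := Real.norm_exp_I_mul_ofReal_sub_one_le (x := t)
        rw [Real.norm_of_nonneg ht.1] at this
        exact this
      linarith
  have hint : ∫ t in (0:ℝ)..(2 * Real.pi), (ε + t)⁻¹ = Real.log ((ε + 2 * Real.pi) / ε) := by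
    have := intervalIntegral.integral_comp_add_left (f := fun x : ℝ => x⁻¹) (a := 0)
      (b := 2 * Real.pi) ε
    rw [this, integral_inv_of_pos (by linarith) (by positivity)]
    simp
  rw [hint] at hle
  have hlog : |B| + 1 ≤ Real.log ((ε + 2 * Real.pi) / ε) := by
    rw [Real.le_log_iff_exp_le (by positivity)]
    rw [le_div_iff₀ hε0]
    have h2 : ε ≤ Real.exp (-(|B| + 1)) := min_le_right _ _
    have h3 : Real.exp (|B| + 1) * ε ≤ 1 := by
      calc Real.exp (|B| + 1) * ε ≤ Real.exp (|B| + 1) * Real.exp (-(|B| + 1)) := by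
            gcongr
        _ = 1 := by rw [← Real.exp_add]; simp
    have h4 := Real.pi_gt_three
    linarith
  have := le_abs_self B
  linarith

end H428PK
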