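import Pool.Agent.H428R2.PK.A7
import Pool.Agent.H428R2.PK.C3
import Pool.Agent.H428R2.PK.Z5
import Pool.Agent.H428R2.PK.Z6

namespace H428PK
open Complex Metric Set Filter Topology

theorem main (α : ℝ) (h0 : 0 < α) (h1 : α ≤ 1) :
    ∃ E : Set ℂ, IsPeakSet α E ∧ ¬ IsZeroSet α E := by
  rcases h1.lt_or_eq with h | h
  · obtain ⟨S, c, H⟩ := concrete_good α h0 h
    exact ⟨Eset (zz α), good_peak h0 h H, concrete_not_zero α h0 h⟩
  · subst h
    exact ⟨{1}, one_peak, one_not_zero⟩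

end H428PK
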